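import Pool.Agent.MP_4948b4_mp.Defs

/-!
Linear stability of a relative equilibrium with angular velocity `1`, and failure of the local
minimum property of the potential.
-/

namespace Pool.Agent.MP_4948b4_mp.H95

/-- The linearisation at `(q, 0)` of the vector field in the frame with angular velocity `1`. -/
noncomputable def lin {n : ℕ} (m : Fin n → ℝ) (q : Fin n → ℂ) (u : (Fin n → ℂ) × (Fin n → ℂ)) :
    (Fin n → ℂ) × (Fin n → ℂ) :=
  fderiv ℝ (rotField m 1) (q, 0) u

/-- The linearisation kills the rotation direction `(i q, 0)`, and the space tangent to the level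
set of the first integrals is spanned by that direction and by `N` planes on which the
linearisation is a rotation, the `N` frequencies being positive and distinct. -/
def Stable {n : ℕ} (m : Fin n → ℝ) (q : Fin n → ℂ) (N : ℕ) : Prop :=
  lin m q ((fun i => Complex.I * q i), 0) = 0 ∧
    ∃ (σ : Fin N → ℝ) (u w : Fin N → (Fin n → ℂ) × (Fin n → ℂ)), Function.Injective σ ∧
      (∀ k, 0 < σ k ∧ u k ≠ 0 ∧ Tangent m 1 q (u k) ∧ Tangent m 1 q (w k) ∧
        lin m q (u k) = σ k • w k ∧ lin m q (w k) = -σ k • u k) ∧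
      ∀ v, Tangent m 1 q v → ∃ (c : ℝ) (a b : Fin N → ℝ),
        v = c • ((fun i => Complex.I * q i), 0) + ∑ k, (a k • u k + b k • w k)

/-- Arbitrarily close to `q` there are collision-free configurations with centre of mass `0`, the
same moment of inertia and a smaller potential. -/
def NotMin {n : ℕ} (m : Fin n → ℝ) (q : Fin n → ℂ) : Prop :=
  ∀ ε > 0, ∃ z : Fin n → ℂ, ‖z - q‖ < ε ∧ Function.Injective z ∧ ∑ i, (m i : ℂ) * z i = 0 ∧
    ∑ i, m i * ‖z i‖ ^ 2 = ∑ i, m i * ‖q i‖ ^ 2 ∧
    ∑ i, ∑ j ∈ Finset.univ.erase i, m i * m j / ‖z i - z j‖ <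
      ∑ i, ∑ j ∈ Finset.univ.erase i, m i * m j / ‖q i - q j‖

end Pool.Agent.MP_4948b4_mp.H95
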