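import Mathlib
import Pool.Agent.MP_4948b4_mp.Mg.LogMain

-- part Gen
section

/-!
General tools: roots of a perturbed determinant, oscillating solutions of the linearisation at a
relative equilibrium, and a basis of the tangent space of the level set of the first integrals.
-/

namespace Pool.Agent.MP_4948b4_mp.H95

open Complex Finset ComplexConjugate Matrix

theorem prod_pert {ι : Type} [DecidableEq ι] (s : Finset ι) (f g : ι → ℝ) {L η : ℝ} (hL : 1 ≤ L)
    (hη : 0 ≤ η) (hf : ∀ i, |f i| ≤ L) (hg : ∀ i, |g i| ≤ L) (h : ∀ i, |f i - g i| ≤ η) :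
    |∏ i ∈ s, f i - ∏ i ∈ s, g i| ≤ s.card * η * L ^ s.card := by
  induction s using Finset.induction_on with
  | empty => simp
  | insert a s ha ih =>
    rw [prod_insert ha, prod_insert ha, card_insert_of_notMem ha]
    have hp : |∏ i ∈ s, g i| ≤ L ^ s.card := by
      rw [abs_prod]
      exact (prod_le_prod (fun i _ => abs_nonneg _) fun i _ => hg i).trans (prod_const L).le
    have e : f a * ∏ i ∈ s, f i - g a * ∏ i ∈ s, g i =
        f a * (∏ i ∈ s, f i - ∏ i ∈ s, g i) + (f a - g a) * ∏ i ∈ s, g i := by ring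
    have hP : 0 ≤ L ^ s.card := by positivity
    have h1 : |f a| * |∏ i ∈ s, f i - ∏ i ∈ s, g i| ≤ L * (s.card * η * L ^ s.card) :=
      mul_le_mul (hf a) ih (abs_nonneg _) (by linarith)
    have h2 : |f a - g a| * |∏ i ∈ s, g i| ≤ η * L ^ s.card :=
      mul_le_mul (h a) hp (abs_nonneg _) hη
    have h3 : η * L ^ s.card ≤ η * L ^ s.card * L :=
      le_mul_of_one_le_right (by positivity) hL
    rw [e]
    refine (abs_add_le _ _).trans ?_
    rw [abs_mul, abs_mul, pow_succ]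
    push_cast
    nlinarith

theorem det_pert {k : ℕ} (A B : Matrix (Fin k) (Fin k) ℝ) {L η : ℝ} (hL : 1 ≤ L) (hη : 0 ≤ η)
    (hA : ∀ i j, |A i j| ≤ L) (hB : ∀ i j, |B i j| ≤ L) (h : ∀ i j, |A i j - B i j| ≤ η) :
    |A.det - B.det| ≤ k.factorial * (k * η * L ^ k) := by
  rw [det_apply', det_apply', ← sum_sub_distrib]
  refine (abs_sum_le_sum_abs _ _).trans ?_
  refine (sum_le_card_nsmul _ _ (k * η * L ^ k) fun σ _ => ?_).trans ?_
  · rw [← mul_sub, abs_mul]
    have h1 : |((Equiv.Perm.sign σ : ℤ) : ℝ)| = 1 := by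
      rcases Int.units_eq_one_or (Equiv.Perm.sign σ) with h | h <;> simp [h]
    have := prod_pert univ (fun i => A (σ i) i) (fun i => B (σ i) i) hL hη (fun i => hA _ _)
      (fun i => hB _ _) fun i => h _ _
    rw [h1, one_mul]
    simpa using this
  · simp [Fintype.card_perm]

/-- the block of the pencil -/
noncomputable def blk {k : ℕ} (N : Matrix (Fin k) (Fin k) ℝ) (t : Fin k → ℝ) (σ : ℝ) :
    Matrix (Fin k) (Fin k) ℝ := fun i j => N i j + if i = j then (σ + t i) ^ 2 else 0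

theorem blk_root {k : ℕ} (hk : k ≤ 5) (N N' : Matrix (Fin k) (Fin k) ℝ) (t : Fin k → ℝ)
    (ht : ∀ i, |t i| ≤ 1) (hN' : ∀ i j, |N' i j| ≤ 2)
    (hN : ∀ i j, |N i j - N' i j| ≤ 1 / 10 ^ 17) {a b : ℝ} (ha : -1 ≤ a) (hab : a ≤ b) (hb : b ≤ 1)
    (hs : ((blk N' t a).det < -(1 / 10 ^ 9) ∧ 1 / 10 ^ 9 < (blk N' t b).det) ∨
      (1 / 10 ^ 9 < (blk N' t a).det ∧ (blk N' t b).det < -(1 / 10 ^ 9))) :
    ∃ σ, a < σ ∧ σ < b ∧ ∃ v : Fin k → ℝ, v ≠ 0 ∧ blk N t σ *ᵥ v = 0 := by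
  have pert : ∀ c, -1 ≤ c → c ≤ 1 → |(blk N t c).det - (blk N' t c).det| ≤ 1 / 10 ^ 9 := by
    intro c h1 h2
    have sq : ∀ i j : Fin k, |(if i = j then (c + t i) ^ 2 else 0 : ℝ)| ≤ 4 := fun i j => by
      have := abs_le.1 (ht i)
      split_ifs
      · rw [abs_of_nonneg (sq_nonneg _)]; nlinarith [this.1, this.2]
      · norm_num
    have := det_pert (blk N t c) (blk N' t c) (L := 7) (η := 1 / 10 ^ 17) (by norm_num)
      (by norm_num) (fun i j => ?_) (fun i j => ?_) (fun i j => ?_)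
    · refine this.trans ?_
      interval_cases k <;> norm_num [Nat.factorial]
    · have a1 := abs_le.1 (hN i j)
      have a2 := abs_le.1 (hN' i j)
      have a3 := abs_le.1 (sq i j)
      rw [blk, abs_le]
      constructor <;> linarith [a1.1, a1.2, a2.1, a2.2, a3.1, a3.2]
    · have a2 := abs_le.1 (hN' i j)
      have a3 := abs_le.1 (sq i j)
      rw [blk, abs_le]
      constructor <;> linarith [a2.1, a2.2, a3.1, a3.2]
    · simpa [blk] using hN i j
  have hc : Continuous fun σ => (blk N t σ).det := by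
    refine Continuous.matrix_det (continuous_matrix fun i j => ?_)
    unfold blk
    split_ifs <;> fun_prop
  have pa := abs_le.1 (pert a ha (hab.trans hb))
  have pb := abs_le.1 (pert b (ha.trans hab) hb)
  have : ∃ σ ∈ Set.Ioo a b, (blk N t σ).det = 0 := by
    rcases hs with ⟨h1, h2⟩ | ⟨h1, h2⟩
    · exact intermediate_value_Ioo hab hc.continuousOn
        ⟨by show (blk N t a).det < 0; linarith [pa.2], by show 0 < (blk N t b).det; linarith [pb.1]⟩
    · exact intermediate_value_Ioo' hab hc.continuousOn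
        ⟨by show (blk N t b).det < 0; linarith [pb.2], by show 0 < (blk N t a).det; linarith [pa.1]⟩
  obtain ⟨σ, ⟨h1, h2⟩, h3⟩ := this
  exact ⟨σ, h1, h2, Matrix.exists_mulVec_eq_zero_iff.2 h3⟩

variable {n : ℕ} {m : Fin n → ℝ} {ω : ℝ} {q : Fin n → ℂ}

theorem opA_lin (m : Fin n → ℝ) (ω : ℝ) (q : Fin n → ℂ) (e : Fin n → Fin n → ℂ) (c d : ℂ)
    (a b a' b' x y : Fin n → ℂ) (hx : ∀ j, x j = c * a j + d * a' j)
    (hy : ∀ j, y j = c * b j + d * b' j) (i : Fin n) :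
    opA m ω q e x y i = c * opA m ω q e a b i + d * opA m ω q e a' b' i := by
  simp only [opA, hx, hy, mul_add c, mul_add d, mul_sum]
  rw [add_add_add_comm, ← sum_add_distrib]
  congr 1
  · ring
  · exact sum_congr rfl fun j _ => by ring

/-- A solution `α e^{iσt} + β e^{-iσt}` of the linearised equations gives an invariant plane. -/
theorem mode (m : Fin n → ℝ) (hq : Function.Injective q) (σ : ℝ) (α β : Fin n → ℂ)
    (h1 : ∀ i, opA m 1 q (ec q) α (fun j => conj (β j)) i + (σ ^ 2 + 2 * σ) * α i = 0)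
    (h2 : ∀ i, opA m 1 q (ec q) β (fun j => conj (α j)) i + (σ ^ 2 - 2 * σ) * β i = 0)
    (hσ : σ ≠ 0) (h0 : ¬ (α = 0 ∧ β = 0)) :
    ∃ u w : (Fin n → ℂ) × (Fin n → ℂ), u ≠ 0 ∧
      fderiv ℝ (rotField m 1) (q, 0) u = σ • w ∧ fderiv ℝ (rotField m 1) (q, 0) w = -σ • u := by
  refine ⟨(fun j => α j + β j, fun j => I * σ * (α j - β j)),
    (fun j => I * (α j - β j), fun j => -σ * (α j + β j)), fun h => h0 ?_, ?_, ?_⟩
  · have a1 : ∀ j, α j + β j = 0 := fun j => congrFun (congrArg Prod.fst h) j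
    have a2 : ∀ j, α j - β j = 0 := fun j => by
      have : I * σ * (α j - β j) = 0 := congrFun (congrArg Prod.snd h) j
      have hs : (σ : ℂ) ≠ 0 := by exact_mod_cast hσ
      exact (mul_eq_zero.1 this).resolve_left (mul_ne_zero I_ne_zero hs)
    exact ⟨funext fun j => by show α j = 0; linear_combination (a1 j + a2 j) / 2,
      funext fun j => by show β j = 0; linear_combination (a1 j - a2 j) / 2⟩
  · rw [fderiv_opA m 1 hq]
    refine Prod.ext (funext fun i => ?_) (funext fun i => ?_)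
    · simp only [Prod.smul_fst, Pi.smul_apply, real_smul]
      ring
    · simp only [Prod.smul_snd, Pi.smul_apply, real_smul]
      rw [opA_lin m 1 q (ec q) 1 1 α (fun j => conj (β j)) β (fun j => conj (α j)) _ _
        (fun j => by ring) (fun j => by rw [map_add]; ring)]
      push_cast
      linear_combination h1 i + h2 i - 2 * σ * (α i - β i) * I_mul_I
  · rw [fderiv_opA m 1 hq]
    refine Prod.ext (funext fun i => ?_) (funext fun i => ?_)
    · simp only [Prod.smul_fst, Pi.smul_apply, real_smul]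
      push_cast
      ring
    · simp only [Prod.smul_snd, Pi.smul_apply, real_smul]
      rw [opA_lin m 1 q (ec q) I (-I) α (fun j => conj (β j)) β (fun j => conj (α j)) _ _
        (fun j => by ring) (fun j => by rw [map_mul, map_sub, conj_I]; ring)]
      push_cast
      linear_combination I * h1 i - I * h2 i

theorem tangent_osc (hq : Function.Injective q) (h : rotField m ω (q, 0) = 0) {α β : ℝ}
    (n1 : (α + ω * I + β * I : ℂ) ≠ 0) (n2 : (α + ω * I - β * I : ℂ) ≠ 0)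
    (p : α ^ 2 + β ^ 2 ≠ 0) {u w : (Fin n → ℂ) × (Fin n → ℂ)}
    (hu : fderiv ℝ (rotField m ω) (q, 0) u = α • u - β • w)
    (hw : fderiv ℝ (rotField m ω) (q, 0) w = β • u + α • w) :
    Tangent m ω q u ∧ Tangent m ω q w := by
  rw [fderiv_opA m ω hq] at hu hw
  have u1 : ∀ i, u.2 i = α * u.1 i - β * w.1 i := fun i => by
    simpa using congrFun (congrArg Prod.fst hu) i
  have w1 : ∀ i, w.2 i = β * u.1 i + α * w.1 i := fun i => by
    simpa using congrFun (congrArg Prod.fst hw) i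
  have u2 : ∀ i, opA m ω q (ec q) u.1 (fun j => conj (u.1 j)) i =
      2 * ω * I * u.2 i + (α * u.2 i - β * w.2 i) := fun i => by
    have := congrFun (congrArg Prod.snd hu) i
    simp only [Prod.snd_sub, Prod.smul_snd, Pi.sub_apply, Pi.smul_apply, real_smul] at this
    linear_combination this
  have w2 : ∀ i, opA m ω q (ec q) w.1 (fun j => conj (w.1 j)) i =
      2 * ω * I * w.2 i + (β * u.2 i + α * w.2 i) := fun i => by
    have := congrFun (congrArg Prod.snd hw) i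
    simp only [Prod.snd_add, Prod.smul_snd, Pi.add_apply, Pi.smul_apply, real_smul] at this
    linear_combination this
  have solve : ∀ x y : ℂ, (α + ω * I) * x - β * y = 0 → β * x + (α + ω * I) * y = 0 →
      x = 0 ∧ y = 0 := fun x y h1 h2 => by
    have a1 : x + I * y = 0 := by
      apply mul_left_cancel₀ n1
      linear_combination h1 + I * h2 + β * y * I_mul_I
    have a2 : x - I * y = 0 := by
      apply mul_left_cancel₀ n2
      linear_combination h1 - I * h2 + β * y * I_mul_I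
    exact ⟨by linear_combination (a1 + a2) / 2,
      by linear_combination -I * (a1 - a2) / 2 + y * I_mul_I⟩
  have lin : ∀ (c d : ℂ) (x y : Fin n → ℂ), ∑ i, (m i : ℂ) * (c * x i + d * y i) =
      c * ∑ i, (m i : ℂ) * x i + d * ∑ i, (m i : ℂ) * y i := fun c d x y => by
    rw [mul_sum, mul_sum, ← sum_add_distrib]
    exact sum_congr rfl fun i _ => by ring
  have s1 : ∑ i, (m i : ℂ) * u.2 i = α * ∑ i, (m i : ℂ) * u.1 i - β * ∑ i, (m i : ℂ) * w.1 i := by
    rw [sub_eq_add_neg, ← neg_mul, ← lin]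
    exact sum_congr rfl fun i _ => by rw [u1]; ring
  have s2 : ∑ i, (m i : ℂ) * w.2 i = β * ∑ i, (m i : ℂ) * u.1 i + α * ∑ i, (m i : ℂ) * w.1 i := by
    rw [← lin]
    exact sum_congr rfl fun i _ => by rw [w1]
  have s3 : (ω : ℂ) ^ 2 * ∑ i, (m i : ℂ) * u.1 i =
      (2 * ω * I + α) * ∑ i, (m i : ℂ) * u.2 i + -β * ∑ i, (m i : ℂ) * w.2 i := by
    rw [← sum_opA (q := q), ← lin]
    exact sum_congr rfl fun i _ => by rw [u2]; ring
  have s4 : (ω : ℂ) ^ 2 * ∑ i, (m i : ℂ) * w.1 i =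
      β * ∑ i, (m i : ℂ) * u.2 i + (2 * ω * I + α) * ∑ i, (m i : ℂ) * w.2 i := by
    rw [← sum_opA (q := q), ← lin]
    exact sum_congr rfl fun i _ => by rw [w2]; ring
  have t : ∀ v : (Fin n → ℂ) × (Fin n → ℂ), ∑ i, (m i : ℂ) * (v.2 i + ω * I * v.1 i) =
      ∑ i, (m i : ℂ) * v.2 i + ω * I * ∑ i, (m i : ℂ) * v.1 i := fun v => by
    rw [mul_sum, ← sum_add_distrib]
    exact sum_congr rfl fun i _ => by ring
  obtain ⟨c1, c2⟩ := solve (∑ i, (m i : ℂ) * u.2 i + ω * I * ∑ i, (m i : ℂ) * u.1 i)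
    (∑ i, (m i : ℂ) * w.2 i + ω * I * ∑ i, (m i : ℂ) * w.1 i)
    (by linear_combination -s3 - ω * I * s1 + ω ^ 2 * (∑ i, (m i : ℂ) * u.1 i) * I_mul_I)
    (by linear_combination -s4 - ω * I * s2 + ω ^ 2 * (∑ i, (m i : ℂ) * w.1 i) * I_mul_I)
  obtain ⟨d1, d2⟩ := solve (∑ i, (m i : ℂ) * u.1 i) (∑ i, (m i : ℂ) * w.1 i)
    (by linear_combination c1 - s1) (by linear_combination c2 - s2)
  let J : (Fin n → ℂ) × (Fin n → ℂ) → ℝ := fun v =>
    ∑ i, m i * (2 * ω * (conj (q i) * v.1 i).re + (conj (q i) * v.2 i).im)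
  have j1 : α * J u - β * J w = 0 := by
    rw [← ang_opA h u.1, mul_sum, mul_sum, ← sum_sub_distrib]
    refine sum_congr rfl fun i _ => ?_
    have a1 := congrArg (fun t => (conj (q i) * t).re) (u1 i)
    rw [u2]
    simp at a1 ⊢
    linear_combination (-2 * ω * m i) * a1
  have j2 : β * J u + α * J w = 0 := by
    rw [← ang_opA h w.1, mul_sum, mul_sum, ← sum_add_distrib]
    refine sum_congr rfl fun i _ => ?_
    have a1 := congrArg (fun t => (conj (q i) * t).re) (w1 i)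
    rw [w2]
    simp at a1 ⊢
    linear_combination (-2 * ω * m i) * a1
  have j3 : J u = 0 := by
    apply mul_left_cancel₀ p
    linear_combination α * j1 + β * j2
  have j4 : J w = 0 := by
    apply mul_left_cancel₀ p
    linear_combination α * j2 - β * j1
  exact ⟨⟨d1, by rw [t, c1], by rw [fderiv_angMom]; exact j3⟩,
    ⟨d2, by rw [t, c2], by rw [fderiv_angMom]; exact j4⟩⟩

theorem indep {V : Type} [AddCommGroup V] [Module ℝ V] {k : ℕ} (D : V →ₗ[ℝ] V) (g : V)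
    (hg : g ≠ 0) (hD : D g = 0) (σ : Fin k → ℝ) (u w : Fin k → V) (h0 : ∀ i, σ i ≠ 0)
    (hinj : Function.Injective fun i => σ i ^ 2) (hu : ∀ i, u i ≠ 0)
    (h1 : ∀ i, D (u i) = σ i • w i) (h2 : ∀ i, D (w i) = -σ i • u i) :
    LinearIndependent ℝ (Sum.elim (fun _ : Unit => g) (Sum.elim u w)) := by
  classical
  rw [Fintype.linearIndependent_iff]
  intro c hc
  rw [Fintype.sum_sum_type, Fintype.sum_sum_type] at hc
  simp only [Sum.elim_inl, Sum.elim_inr, univ_unique, sum_singleton] at hc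
  set x : Option (Fin k) → V := fun o => o.elim (c (.inl default) • g)
    fun i => c (.inr (.inl i)) • u i + c (.inr (.inr i)) • w i with hx
  set μ : Option (Fin k) → ℝ := fun o => o.elim 0 fun i => -(σ i ^ 2) with hμ
  have hμi : Function.Injective μ := by
    rintro (_ | i) (_ | j) h
    · rfl
    · exact absurd (neg_eq_zero.1 (h.symm : -(σ j ^ 2) = 0)) (pow_ne_zero 2 (h0 j))
    · exact absurd (neg_eq_zero.1 (h : -(σ i ^ 2) = 0)) (pow_ne_zero 2 (h0 i))
    · exact congrArg some (hinj (neg_injective (h : -(σ i ^ 2) = -(σ j ^ 2))))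
  have hmem : ∀ o, x o ∈ Module.End.eigenspace (D ∘ₗ D) (μ o) := by
    rintro (_ | i)
    · simp [hx, hμ, hD]
    · rw [Module.End.mem_eigenspace_iff]
      simp only [hx, hμ, Option.elim_some, LinearMap.comp_apply, map_add, map_smul, h1, h2,
        smul_smul, smul_add]
      congr 1 <;> congr 1 <;> ring
  have hind : iSupIndep fun o => Module.End.eigenspace (D ∘ₗ D) (μ o) :=
    (Module.End.eigenspaces_iSupIndep (D ∘ₗ D)).comp hμi
  have hsum : ∑ o, x o = 0 := by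
    rw [Fintype.sum_option]
    simpa [hx, sum_add_distrib] using hc
  have hz : ∀ o, x o = 0 := fun o =>
    (iSupIndep_iff_finsetSum_eq_zero_imp_eq_zero _).1 hind univ x (fun o _ => hmem o) hsum o
      (mem_univ o)
  have key : ∀ i, c (.inr (.inl i)) = 0 ∧ c (.inr (.inr i)) = 0 := fun i => by
    have a1 : c (.inr (.inl i)) • u i + c (.inr (.inr i)) • w i = 0 := hz (some i)
    have a2 := congrArg D a1
    rw [map_add, map_smul, map_smul, h1, h2, map_zero] at a2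
    have a3 : (σ i * (c (.inr (.inl i)) ^ 2 + c (.inr (.inr i)) ^ 2)) • u i = 0 := by
      have : (σ i * (c (.inr (.inl i)) ^ 2 + c (.inr (.inr i)) ^ 2)) • u i =
          (σ i * c (.inr (.inl i))) • (c (.inr (.inl i)) • u i + c (.inr (.inr i)) • w i) -
          c (.inr (.inr i)) • (c (.inr (.inl i)) • σ i • w i + c (.inr (.inr i)) • -σ i • u i) := by
        module
      rw [this, a1, a2]; simp
    have a4 := (mul_eq_zero.1 ((smul_eq_zero.1 a3).resolve_right (hu i))).resolve_left (h0 i)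
    constructor <;> nlinarith [sq_nonneg (c (.inr (.inl i))), sq_nonneg (c (.inr (.inr i)))]
  rintro (_ | i | i)
  · exact (smul_eq_zero.1 (hz none)).resolve_right hg
  · exact (key i).1
  · exact (key i).2

/-- the differentials of the first integrals -/
noncomputable def integrals (m : Fin n → ℝ) (ω : ℝ) (q : Fin n → ℂ) :
    ((Fin n → ℂ) × (Fin n → ℂ)) →ₗ[ℝ] ℂ × ℂ × ℝ where
  toFun u := (∑ i, (m i : ℂ) * u.1 i, ∑ i, (m i : ℂ) * (u.2 i + ω * I * u.1 i),
    fderiv ℝ (angMom m ω) (q, 0) u)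
  map_add' u v := by
    refine Prod.ext ?_ (Prod.ext ?_ ?_)
    · simp [mul_add, sum_add_distrib]
    · simp only [Prod.fst_add, Prod.snd_add, Pi.add_apply, Prod.mk_add_mk]
      rw [← sum_add_distrib]
      exact sum_congr rfl fun i _ => by ring
    · simp
  map_smul' c u := by
    refine Prod.ext ?_ (Prod.ext ?_ ?_)
    · simp only [Prod.smul_fst, Pi.smul_apply, real_smul, RingHom.id_apply, mul_sum]
      exact sum_congr rfl fun i _ => by ring
    · simp only [Prod.smul_fst, Prod.smul_snd, Pi.smul_apply, real_smul, RingHom.id_apply, mul_sum]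
      exact sum_congr rfl fun i _ => by ring
    · simp

theorem mem_ker_integrals (u : (Fin n → ℂ) × (Fin n → ℂ)) :
    u ∈ LinearMap.ker (integrals m ω q) ↔ Tangent m ω q u := by
  simp [integrals, Tangent, Prod.ext_iff]

theorem integrals_surj (hM : ∑ i, m i ≠ 0) (hc : ∑ i, (m i : ℂ) * q i = 0)
    (hI : ∑ i, m i * ‖q i‖ ^ 2 ≠ 0) : Function.Surjective (integrals m ω q) := by
  rintro ⟨c1, c2, r⟩
  have hM' : ((∑ i, m i : ℝ) : ℂ) ≠ 0 := by exact_mod_cast hM
  have hre : ∑ i, m i * (q i).re = 0 := by simpa [re_sum] using congrArg re hc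
  have him : ∑ i, m i * (q i).im = 0 := by simpa [im_sum] using congrArg im hc
  set a : ℂ := c1 / (∑ i, m i : ℝ) with ha
  set b : ℂ := c2 / (∑ i, m i : ℝ) - ω * I * a with hb
  set l : ℝ := r / ∑ i, m i * ‖q i‖ ^ 2 with hl
  refine ⟨(fun _ => a, fun i => b + l * I * q i), Prod.ext ?_ (Prod.ext ?_ ?_)⟩
  · show ∑ i, (m i : ℂ) * a = c1
    rw [← sum_mul, ← ofReal_sum, ha]
    field_simp
  · show ∑ i, (m i : ℂ) * (b + l * I * q i + ω * I * a) = c2
    have : ∑ i, (m i : ℂ) * (b + l * I * q i + ω * I * a) =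
        (∑ i, (m i : ℂ)) * (c2 / (∑ i, m i : ℝ)) + l * I * ∑ i, (m i : ℂ) * q i := by
      rw [sum_mul, mul_sum, ← sum_add_distrib]
      exact sum_congr rfl fun i _ => by rw [hb]; ring
    rw [this, hc, ← ofReal_sum]
    field_simp
    ring
  · show fderiv ℝ (angMom m ω) (q, 0) _ = r
    rw [fderiv_angMom]
    have : ∑ i, m i * (2 * ω * (conj (q i) * a).re + (conj (q i) * (b + l * I * q i)).im) =
        (2 * ω * a.re + b.im) * ∑ i, m i * (q i).re + (2 * ω * a.im - b.re) * ∑ i, m i * (q i).im +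
          l * ∑ i, m i * ‖q i‖ ^ 2 := by
      rw [mul_sum, mul_sum, mul_sum, ← sum_add_distrib, ← sum_add_distrib]
      refine sum_congr rfl fun i _ => ?_
      rw [Complex.sq_norm, normSq_apply]
      simp
      ring
    rw [this, hre, him, hl]
    field_simp
    ring

theorem span_tangent {k : ℕ} (hk : 2 * k + 6 = 4 * n) (hM : ∑ i, m i ≠ 0)
    (hc : ∑ i, (m i : ℂ) * q i = 0) (hI : ∑ i, m i * ‖q i‖ ^ 2 ≠ 0)
    (g : (Fin n → ℂ) × (Fin n → ℂ)) (u w : Fin k → (Fin n → ℂ) × (Fin n → ℂ))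
    (hind : LinearIndependent ℝ (Sum.elim (fun _ : Unit => g) (Sum.elim u w)))
    (tg : Tangent m ω q g) (tu : ∀ i, Tangent m ω q (u i)) (tw : ∀ i, Tangent m ω q (w i))
    (v : (Fin n → ℂ) × (Fin n → ℂ)) (hv : Tangent m ω q v) :
    ∃ (c : ℝ) (a b : Fin k → ℝ), v = c • g + ∑ i, (a i • u i + b i • w i) := by
  have hr := LinearMap.finrank_range_add_finrank_ker (integrals m ω q)
  rw [LinearMap.range_eq_top.2 (integrals_surj hM hc hI), finrank_top] at hr
  have d1 : Module.finrank ℝ (ℂ × ℂ × ℝ) = 5 := by simp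
  have d2 : Module.finrank ℝ ((Fin n → ℂ) × (Fin n → ℂ)) = 4 * n := by
    simp [Module.finrank_pi_fintype]; ring
  have hle : Submodule.span ℝ (Set.range (Sum.elim (fun _ : Unit => g) (Sum.elim u w))) ≤
      LinearMap.ker (integrals m ω q) := by
    rw [Submodule.span_le]
    rintro _ ⟨_ | i | i, rfl⟩
    · exact (mem_ker_integrals _).2 tg
    · exact (mem_ker_integrals _).2 (tu i)
    · exact (mem_ker_integrals _).2 (tw i)
  have heq := Submodule.eq_of_le_of_finrank_eq hle (by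
    rw [finrank_span_eq_card hind]
    simp only [Fintype.card_sum, Fintype.card_unit, Fintype.card_fin]
    omega)
  have hm := (mem_ker_integrals v).2 hv
  rw [← heq, Submodule.mem_span_range_iff_exists_fun] at hm
  obtain ⟨c, hc⟩ := hm
  refine ⟨c (.inl default), fun i => c (.inr (.inl i)), fun i => c (.inr (.inr i)), ?_⟩
  rw [← hc, Fintype.sum_sum_type, Fintype.sum_sum_type, sum_add_distrib]
  simp

end Pool.Agent.MP_4948b4_mp.H95

end

-- part Saddle
section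

/-!
A direction with negative second variation gives nearby configurations with the same centre of mass
and moment of inertia and a smaller potential.
-/

namespace Pool.Agent.MP_4948b4_mp.H95

open Complex Finset ComplexConjugate Filter Topology

theorem lt_of_second {f f1 : ℝ → ℝ} {c : ℝ} (h : ∀ᶠ t in 𝓝 (0 : ℝ), HasDerivAt f (f1 t) t)
    (h0 : f1 0 = 0) (h1 : HasDerivAt f1 c 0) (hc : c < 0) : ∀ᶠ t in 𝓝[>] (0 : ℝ), f t < f 0 := by
  have hs : ∀ᶠ t in 𝓝[≠] (0 : ℝ), slope f1 0 t < 0 :=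
    (hasDerivAt_iff_tendsto_slope.1 h1).eventually (gt_mem_nhds hc)
  rw [eventually_nhdsWithin_iff] at hs
  obtain ⟨δ, hδ, H⟩ := Metric.eventually_nhds_iff.1 (h.and hs)
  have hI : ∀ t, 0 ≤ t → t < δ → dist t 0 < δ := fun t a b => by
    rwa [Real.dist_eq, sub_zero, abs_of_nonneg a]
  filter_upwards [Ioo_mem_nhdsGT hδ] with t ht
  obtain ⟨s, hs, e⟩ := exists_hasDerivAt_eq_slope f f1 ht.1
    (fun x hx => (H (hI x hx.1 (hx.2.trans_lt ht.2))).1.continuousAt.continuousWithinAt)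
    fun x hx => (H (hI x hx.1.le (hx.2.trans ht.2))).1
  have a := (H (hI s hs.1.le (hs.2.trans ht.2))).2 hs.1.ne'
  rw [slope_def_field, h0, sub_zero, sub_zero, e, sub_zero] at a
  have b : (f t - f 0) / t < 0 := by
    by_contra hb
    exact absurd a (not_lt.2 (div_nonneg (not_lt.1 hb) hs.1.le))
  have := (div_neg_iff.1 b).resolve_left fun h => absurd h.2 (not_lt.2 ht.1.le)
  linarith [this.1]

theorem inv_sqrt_deriv (D B C t : ℝ) (hp : 0 < D + 2 * B * t + C * t ^ 2) :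
    HasDerivAt (fun t => (√(D + 2 * B * t + C * t ^ 2))⁻¹)
      (-(B + C * t) * (√(D + 2 * B * t + C * t ^ 2))⁻¹ ^ 3) t := by
  have h1 : HasDerivAt (fun t => D + 2 * B * t + C * t ^ 2) (2 * B + C * (2 * t)) t :=
    ((((hasDerivAt_id' t).const_mul (2 * B)).const_add D).fun_add
      ((hasDerivAt_pow 2 t).const_mul C)).congr_deriv (by simp)
  have hs : √(D + 2 * B * t + C * t ^ 2) ≠ 0 := (Real.sqrt_pos.2 hp).ne'
  refine ((h1.sqrt hp.ne').fun_inv hs).congr_deriv ?_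
  generalize √(D + 2 * B * t + C * t ^ 2) = r at hs
  field_simp

theorem inv_sqrt_deriv2 (D B C : ℝ) (hD : 0 < D) :
    HasDerivAt (fun t => -(B + C * t) * (√(D + 2 * B * t + C * t ^ 2))⁻¹ ^ 3)
      ((√D ^ 3)⁻¹ * (3 * B ^ 2 / D - C)) 0 := by
  have h1 := inv_sqrt_deriv D B C 0 (by simpa using hD)
  have h2 : HasDerivAt (fun t => -(B + C * t)) (-C) 0 :=
    (((hasDerivAt_id' (0 : ℝ)).const_mul C).const_add B).fun_neg.congr_deriv (by simp)
  refine (h2.fun_mul (h1.fun_pow 3)).congr_deriv ?_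
  have hs : √D ≠ 0 := (Real.sqrt_pos.2 hD).ne'
  have e : √D ^ 2 = D := Real.sq_sqrt hD.le
  have z : D + 2 * B * 0 + C * 0 ^ 2 = D := by ring
  rw [z]
  generalize √D = r at hs e
  subst e
  simp only [Nat.cast_ofNat, Nat.add_one_sub_one]
  field_simp
  ring

variable {n : ℕ}

theorem saddle (m : Fin n → ℝ) (hm : ∀ i, 0 < m i) (q ξ : Fin n → ℂ) (hq : Function.Injective q)
    (hI : 0 < ∑ i, m i * ‖q i‖ ^ 2)
    (c0 : ∑ i, (m i : ℂ) * q i = 0) (c1 : ∑ i, (m i : ℂ) * ξ i = 0)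
    (ho : ∑ i, m i * (conj (q i) * ξ i).re = 0)
    (H1 : ∑ i, ∑ j, m i * m j * (wc q j i * (conj (q i - q j) * (ξ i - ξ j)).re) = 0)
    (H2 : ∑ i, ∑ j, m i * m j * (wc q j i * normSq (q i - q j)) = 2 * ∑ i, m i * ‖q i‖ ^ 2)
    (H3 : ∑ i, ∑ j, m i * m j * (wc q j i * (3 * (conj (q i - q j) * (ξ i - ξ j)).re ^ 2 /
      normSq (q i - q j) - normSq (ξ i - ξ j))) + 2 * ∑ i, m i * ‖ξ i‖ ^ 2 < 0)
    (ε : ℝ) (hε : 0 < ε) :
    ∃ z : Fin n → ℂ, ‖z - q‖ < ε ∧ Function.Injective z ∧ ∑ i, (m i : ℂ) * z i = 0 ∧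
      ∑ i, m i * ‖z i‖ ^ 2 = ∑ i, m i * ‖q i‖ ^ 2 ∧
      ∑ i, ∑ j ∈ univ.erase i, m i * m j / ‖z i - z j‖ <
        ∑ i, ∑ j ∈ univ.erase i, m i * m j / ‖q i - q j‖ := by
  set I0 := ∑ i, m i * ‖q i‖ ^ 2 with hI0
  set N := ∑ i, m i * ‖ξ i‖ ^ 2 with hN
  have hN0 : 0 ≤ N := sum_nonneg fun i _ => mul_nonneg (hm i).le (sq_nonneg _)
  set D : Fin n → Fin n → ℝ := fun i j => normSq (q i - q j) with hD
  set B : Fin n → Fin n → ℝ := fun i j => (conj (q i - q j) * (ξ i - ξ j)).re with hB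
  set C : Fin n → Fin n → ℝ := fun i j => normSq (ξ i - ξ j) with hC
  have hD0 : ∀ i j, j ≠ i → 0 < D i j := fun i j h => normSq_pos.2 (sub_ne_zero.2 (hq.ne h.symm))
  have hw : ∀ i j, wc q j i = (√(D i j) ^ 3)⁻¹ := fun i j => by rw [wc, norm_def]
  have hdiag : ∀ (F : Fin n → Fin n → ℝ) (i : Fin n),
      ∑ j, m i * m j * (wc q j i * F i j) = ∑ j ∈ univ.erase i, m i * m j * (wc q j i * F i j) :=
    fun F i => by
      rw [← add_sum_erase univ _ (mem_univ i)]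
      simp [wc]
  have hp : ∀ (t : ℝ) i j, normSq (q i + t * ξ i - (q j + t * ξ j)) =
      D i j + 2 * B i j * t + C i j * t ^ 2 := fun t i j => by
    simp only [hD, hB, hC, normSq_apply]
    simp
    ring
  set U : ℝ → ℝ := fun t => ∑ i, ∑ j ∈ univ.erase i,
    m i * m j * (√(D i j + 2 * B i j * t + C i j * t ^ 2))⁻¹ with hU
  set U1 : ℝ → ℝ := fun t => ∑ i, ∑ j ∈ univ.erase i, m i * m j *
    (-(B i j + C i j * t) * (√(D i j + 2 * B i j * t + C i j * t ^ 2))⁻¹ ^ 3) with hU1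
  have ev : ∀ᶠ t in 𝓝 (0 : ℝ), ∀ i j, j ≠ i → 0 < D i j + 2 * B i j * t + C i j * t ^ 2 := by
    refine eventually_all.2 fun i => eventually_all.2 fun j => ?_
    by_cases h : j = i
    · exact Eventually.of_forall fun _ h' => absurd h h'
    have : ContinuousAt (fun t : ℝ => D i j + 2 * B i j * t + C i j * t ^ 2) 0 := by fun_prop
    exact (this.eventually (lt_mem_nhds (by simpa using hD0 i j h))).mono fun _ h _ => h
  have dU : ∀ t, (∀ i j, j ≠ i → 0 < D i j + 2 * B i j * t + C i j * t ^ 2) →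
      HasDerivAt U (U1 t) t := fun t ht =>
    HasDerivAt.fun_sum fun i _ => HasDerivAt.fun_sum fun j hj =>
      (inv_sqrt_deriv _ _ _ t (ht i j (mem_erase.1 hj).1)).const_mul _
  have dU1 : HasDerivAt U1 (∑ i, ∑ j ∈ univ.erase i, m i * m j *
      ((√(D i j) ^ 3)⁻¹ * (3 * B i j ^ 2 / D i j - C i j))) 0 :=
    HasDerivAt.fun_sum fun i _ => HasDerivAt.fun_sum fun j hj =>
      (inv_sqrt_deriv2 _ _ _ (hD0 i j (mem_erase.1 hj).1)).const_mul _
  have U10 : U1 0 = 0 := by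
    rw [← neg_eq_zero]
    refine Eq.trans ?_ H1
    rw [hU1, ← sum_neg_distrib]
    refine sum_congr rfl fun i _ => ?_
    rw [hdiag B, ← sum_neg_distrib]
    refine sum_congr rfl fun j _ => ?_
    rw [hw, show D i j + 2 * B i j * 0 + C i j * 0 ^ 2 = D i j by ring, inv_pow]
    ring
  have U0 : U 0 = 2 * I0 := by
    rw [← H2, hU]
    refine sum_congr rfl fun i _ => ?_
    rw [hdiag D]
    refine sum_congr rfl fun j hj => ?_
    have h := hD0 i j (mem_erase.1 hj).1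
    have hs : √(D i j) ≠ 0 := (Real.sqrt_pos.2 h).ne'
    have e : √(D i j) ^ 2 = D i j := Real.sq_sqrt h.le
    rw [hw]
    simp only [mul_zero, add_zero, ne_eq, OfNat.ofNat_ne_zero, not_false_eq_true, zero_pow]
    congr 1
    field_simp
    exact e
  set ν := N / (2 * I0) with hν
  have dg : ∀ t : ℝ, HasDerivAt (fun t : ℝ => 1 + ν * t ^ 2) (ν * (2 * t)) t := fun t =>
    (((hasDerivAt_pow 2 t).const_mul ν).const_add 1).congr_deriv (by simp)
  have dg1 : HasDerivAt (fun t : ℝ => ν * (2 * t)) (ν * 2) 0 :=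
    (((hasDerivAt_id' (0 : ℝ)).const_mul 2).const_mul ν).congr_deriv (by simp)
  have main := lt_of_second (f := fun t => U t * (1 + ν * t ^ 2))
    (f1 := fun t => U1 t * (1 + ν * t ^ 2) + U t * (ν * (2 * t)))
    (ev.mono fun t ht => (dU t ht).fun_mul (dg t)) (by simp [U10])
    ((dU1.fun_mul (dg 0)).fun_add ((dU 0 ev.self_of_nhds).fun_mul dg1)) (by
      have e : ∑ i, ∑ j ∈ univ.erase i, m i * m j *
          ((√(D i j) ^ 3)⁻¹ * (3 * B i j ^ 2 / D i j - C i j)) =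
          ∑ i, ∑ j, m i * m j * (wc q j i * (3 * B i j ^ 2 / D i j - C i j)) :=
        sum_congr rfl fun i _ => by
          rw [hdiag fun i j => 3 * B i j ^ 2 / D i j - C i j]
          exact sum_congr rfl fun j _ => by rw [hw]
      have e2 : 2 * I0 * (ν * 2) = 2 * N := by rw [hν]; field_simp
      rw [e, U0, U10, e2]
      have H3' : ∑ i, ∑ j, m i * m j * (wc q j i * (3 * B i j ^ 2 / D i j - C i j)) + 2 * N < 0 :=
        H3
      linarith)
  set κ : ℝ → ℝ := fun t => (√(1 + 2 * ν * t ^ 2))⁻¹ with hκ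
  have hν0 : 0 ≤ ν := by positivity
  have near : ∀ᶠ t in 𝓝 (0 : ℝ), ‖(fun i => (κ t : ℂ) * (q i + t * ξ i)) - q‖ < ε := by
    have h1 : Continuous κ := by
      refine Continuous.inv₀ (by fun_prop) fun t => (Real.sqrt_pos.2 (by positivity)).ne'
    have : ContinuousAt (fun t : ℝ => ‖(fun i => (κ t : ℂ) * (q i + t * ξ i)) - q‖) 0 := by
      fun_prop
    refine this.eventually (gt_mem_nhds ?_)
    have : (fun i => (κ 0 : ℂ) * (q i + (0 : ℝ) * ξ i)) - q = 0 := by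
      funext i; simp [hκ]
    simpa only [this, norm_zero] using hε
  obtain ⟨t, ht1, ht2, ht3⟩ :=
    (main.and ((near.and ev).filter_mono nhdsWithin_le_nhds)).exists
  have hs : 0 < √(1 + 2 * ν * t ^ 2) := Real.sqrt_pos.2 (by positivity)
  have hk : 0 < κ t := inv_pos.2 hs
  have hn : ∀ i j, ‖(κ t : ℂ) * (q i + t * ξ i) - κ t * (q j + t * ξ j)‖ =
      κ t * √(D i j + 2 * B i j * t + C i j * t ^ 2) := fun i j => by
    rw [← mul_sub, norm_mul, norm_real, Real.norm_of_nonneg hk.le, norm_def, hp]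
  refine ⟨_, ht2, fun i j h => ?_, ?_, ?_, ?_⟩
  · by_contra hij
    have h1 := hn i j
    rw [show (κ t : ℂ) * (q i + t * ξ i) = κ t * (q j + t * ξ j) from h, sub_self, norm_zero] at h1
    exact (mul_pos hk (Real.sqrt_pos.2 (ht3 i j (Ne.symm hij)))).ne h1
  · have : ∑ i, (m i : ℂ) * ((κ t : ℂ) * (q i + t * ξ i)) =
        κ t * ∑ i, (m i : ℂ) * q i + κ t * t * ∑ i, (m i : ℂ) * ξ i := by
      rw [mul_sum, mul_sum, ← sum_add_distrib]
      exact sum_congr rfl fun i _ => by ring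
    rw [this, c0, c1]; simp
  · have : ∑ i, m i * ‖(κ t : ℂ) * (q i + t * ξ i)‖ ^ 2 =
        κ t ^ 2 * (I0 + 2 * t * ∑ i, m i * (conj (q i) * ξ i).re + t ^ 2 * N) := by
      rw [hI0, hN, mul_sum, mul_sum, ← sum_add_distrib, ← sum_add_distrib, mul_sum]
      refine sum_congr rfl fun i _ => ?_
      simp only [Complex.sq_norm, normSq_apply]
      simp
      ring
    rw [this, ho, hκ]
    simp only [inv_pow]
    rw [Real.sq_sqrt (by positivity), hν]
    field_simp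
    ring
  · have e1 : ∑ i, ∑ j ∈ univ.erase i,
        m i * m j / ‖(κ t : ℂ) * (q i + t * ξ i) - κ t * (q j + t * ξ j)‖ =
        U t * √(1 + 2 * ν * t ^ 2) := by
      rw [hU, sum_mul]
      refine sum_congr rfl fun i _ => ?_
      rw [sum_mul]
      refine sum_congr rfl fun j _ => ?_
      rw [hn, hκ, div_eq_mul_inv, mul_inv, inv_inv]
      ring
    have e2 : ∑ i, ∑ j ∈ univ.erase i, m i * m j / ‖q i - q j‖ = U 0 := by
      rw [hU]
      refine sum_congr rfl fun i _ => sum_congr rfl fun j _ => ?_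
      rw [norm_def, div_eq_mul_inv]
      simp [hD]
    have e3 : √(1 + 2 * ν * t ^ 2) ≤ 1 + ν * t ^ 2 :=
      Real.sqrt_le_iff.2 ⟨by positivity, by nlinarith [sq_nonneg (ν * t ^ 2)]⟩
    have e4 : 0 ≤ U t := sum_nonneg fun i _ => sum_nonneg fun j _ =>
      mul_nonneg (mul_pos (hm i) (hm j)).le (by positivity)
    rw [e1, e2]
    refine (mul_le_mul_of_nonneg_left e3 e4).trans_lt ?_
    simpa using ht1

end Pool.Agent.MP_4948b4_mp.H95

end

-- part Ex
section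

/-!
The nine-body example: a central mass, a square of four equal masses and a second, slightly larger
square turned by 45 degrees.
-/

namespace Pool.Agent.MP_4948b4_mp.H95

open Complex Finset ComplexConjugate Matrix

theorem det4 (a00 a01 a02 a03 a10 a11 a12 a13 a20 a21 a22 a23 a30 a31 a32 a33 : ℝ) :
    (!![a00, a01, a02, a03; a10, a11, a12, a13; a20, a21, a22, a23; a30, a31, a32, a33] : Matrix (Fin 4) (Fin 4) ℝ).det =
    a00 * (a11 * (a22 * a33 - a23 * a32) - a12 * (a21 * a33 - a23 * a31) + a13 * (a21 * a32 - a22 * a31)) - a01 * (a10 * (a22 * a33 - a23 * a32) - a12 * (a20 * a33 - a23 * a30) + a13 * (a20 * a32 - a22 * a30)) + a02 * (a10 * (a21 * a33 - a23 * a31) - a11 * (a20 * a33 - a23 * a30) + a13 * (a20 * a31 - a21 * a30)) - a03 * (a10 * (a21 * a32 - a22 * a31) - a11 * (a20 * a32 - a22 * a30) + a12 * (a20 * a31 - a21 * a30)) := by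
  simp [Matrix.det_succ_row_zero, Fin.sum_univ_succ, Fin.succAbove]
  ring

theorem det5 (a00 a01 a02 a03 a04 a10 a11 a12 a13 a14 a20 a21 a22 a23 a24 a30 a31 a32 a33 a34 a40 a41 a42 a43 a44 : ℝ) :
    (!![a00, a01, a02, a03, a04; a10, a11, a12, a13, a14; a20, a21, a22, a23, a24; a30, a31, a32, a33, a34; a40, a41, a42, a43, a44] : Matrix (Fin 5) (Fin 5) ℝ).det =
    a00 * (a11 * (a22 * (a33 * a44 - a34 * a43) - a23 * (a32 * a44 - a34 * a42) + a24 * (a32 * a43 - a33 * a42)) - a12 * (a21 * (a33 * a44 - a34 * a43) - a23 * (a31 * a44 - a34 * a41) + a24 * (a31 * a43 - a33 * a41)) + a13 * (a21 * (a32 * a44 - a34 * a42) - a22 * (a31 * a44 - a34 * a41) + a24 * (a31 * a42 - a32 * a41)) - a14 * (a21 * (a32 * a43 - a33 * a42) - a22 * (a31 * a43 - a33 * a41) + a23 * (a31 * a42 - a32 * a41))) - a01 * (a10 * (a22 * (a33 * a44 - a34 * a43) - a23 * (a32 * a44 - a34 * a42) + a24 * (a32 * a43 - a33 * a42)) - a12 * (a20 * (a33 * a44 -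 a34 * a43) - a23 * (a30 * a44 - a34 * a40) + a24 * (a30 * a43 - a33 * a40)) + a13 * (a20 * (a32 * a44 - a34 * a42) - a22 * (a30 * a44 - a34 * a40) + a24 * (a30 * a42 - a32 * a40)) - a14 * (a20 * (a32 * a43 - a33 * a42) - a22 * (a30 * a43 - a33 * a40) + a23 * (a30 * a42 - a32 * a40))) + a02 * (a10 * (a21 * (a33 * a44 - a34 * a43) - a23 * (a31 * a44 - a34 * a41) + a24 * (a31 * a43 - a33 * a41)) - a11 * (a20 * (a33 * a44 - a34 * a43) - a23 * (a30 * a44 - a34 * a40) + a24 * (a30 * a43 - a33 * a40)) + a13 * (a20 * (a31 * a44 - a34 * a41) - a21 * (a30 * a44 - a34 * a40) + a24 * (a30 * a41 - a31 * a40)) - a14 * (a20 * (a31 * a43 - a33 * a41) - a21 * (a30 * a43 - a33 * a40) + a23 * (a30 * a41 - a31 * a40))) - a03 * (a10 * (a21 * (a32 * a44 - a34 * a42) - a22 * (a31 * a44 - a34 * a41) + a24 * (a31 * a42 - a32 * a41)) - a11 * (a20 * (a32 * a44 - a34 * a42) - a22 * (a30 * a44 - a34 * a40) + a24 * (a30 * a42 - a32 * a40)) + a12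 * (a20 * (a31 * a44 - a34 * a41) - a21 * (a30 * a44 - a34 * a40) + a24 * (a30 * a41 - a31 * a40)) - a14 * (a20 * (a31 * a42 - a32 * a41) - a21 * (a30 * a42 - a32 * a40) + a22 * (a30 * a41 - a31 * a40))) + a04 * (a10 * (a21 * (a32 * a43 - a33 * a42) - a22 * (a31 * a43 - a33 * a41) + a23 * (a31 * a42 - a32 * a41)) - a11 * (a20 * (a32 * a43 - a33 * a42) - a22 * (a30 * a43 - a33 * a40) + a23 * (a30 * a42 - a32 * a40)) + a12 * (a20 * (a31 * a43 - a33 * a41) - a21 * (a30 * a43 - a33 * a40) + a23 * (a30 * a41 - a31 * a40)) - a13 * (a20 * (a31 * a42 - a32 * a41) - a21 * (a30 * a42 - a32 * a40) + a22 * (a30 * a41 - a31 * a40))) := by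
  simp [Matrix.det_succ_row_zero, Fin.sum_univ_succ, Fin.succAbove]
  ring

theorem blk_row {k : ℕ} {N : Matrix (Fin k) (Fin k) ℝ} {t : Fin k → ℝ} {σ : ℝ} {v : Fin k → ℝ}
    (h : blk N t σ *ᵥ v = 0) : ∀ i, ∑ j, N i j * v j + (σ + t i) ^ 2 * v i = 0 := fun i => by
  have := congrFun h i
  simpa [blk, Matrix.mulVec, dotProduct, add_mul, sum_add_distrib] using this


noncomputable def X : Fin 9 → ℝ := ![0, 1, 0, (-1), 0, (63 / 89), (-63 / 89), (-63 / 89), (63 / 89)]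
noncomputable def Y : Fin 9 → ℝ := ![0, 0, 1, 0, (-1), (63 / 89), (63 / 89), (-63 / 89), (-63 / 89)]
noncomputable def DT : Fin 9 → Fin 9 → ℝ := ![
    ![0, 1, 1, 1, 1, (7938 / 7921), (7938 / 7921), (7938 / 7921), (7938 / 7921)],
    ![1, 0, 2, 4, 2, (4645 / 7921), (27073 / 7921), (27073 / 7921), (4645 / 7921)],
    ![1, 2, 0, 2, 4, (4645 / 7921), (4645 / 7921), (27073 / 7921), (27073 / 7921)],
    ![1, 4, 2, 0, 2, (27073 / 7921), (4645 / 7921), (4645 / 7921), (27073 / 7921)],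
    ![1, 2, 4, 2, 0, (27073 / 7921), (27073 / 7921), (4645 / 7921), (4645 / 7921)],
    ![(7938 / 7921), (4645 / 7921), (4645 / 7921), (27073 / 7921), (27073 / 7921), 0, (15876 / 7921), (31752 / 7921), (15876 / 7921)],
    ![(7938 / 7921), (27073 / 7921), (4645 / 7921), (4645 / 7921), (27073 / 7921), (15876 / 7921), 0, (15876 / 7921), (31752 / 7921)],
    ![(7938 / 7921), (27073 / 7921), (27073 / 7921), (4645 / 7921), (4645 / 7921), (31752 / 7921), (15876 / 7921), 0, (15876 / 7921)],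
    ![(7938 / 7921), (4645 / 7921), (27073 / 7921), (27073 / 7921), (4645 / 7921), (15876 / 7921), (31752 / 7921), (15876 / 7921), 0]]
noncomputable def ER : Fin 9 → Fin 9 → ℝ := ![
    ![0, 1, (-1), 1, (-1), 0, 0, 0, 0],
    ![1, 0, 0, 1, 0, (-3293 / 4645), (19135 / 27073), (19135 / 27073), (-3293 / 4645)],
    ![(-1), 0, 0, 0, (-1), (3293 / 4645), (3293 / 4645), (-19135 / 27073), (-19135 / 27073)],
    ![1, 1, 0, 0, 0, (19135 / 27073), (-3293 / 4645), (-3293 / 4645), (19135 / 27073)],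
    ![(-1), 0, (-1), 0, 0, (-19135 / 27073), (-19135 / 27073), (3293 / 4645), (3293 / 4645)],
    ![0, (-3293 / 4645), (3293 / 4645), (19135 / 27073), (-19135 / 27073), 0, 1, 0, (-1)],
    ![0, (19135 / 27073), (3293 / 4645), (-3293 / 4645), (-19135 / 27073), 1, 0, (-1), 0],
    ![0, (19135 / 27073), (-19135 / 27073), (-3293 / 4645), (3293 / 4645), 0, (-1), 0, 1],
    ![0, (-3293 / 4645), (-19135 / 27073), (19135 / 27073), (3293 / 4645), (-1), 0, 1, 0]]
noncomputable def EI : Fin 9 → Fin 9 → ℝ := ![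
    ![0, 0, 0, 0, 0, 1, (-1), 1, (-1)],
    ![0, 0, (-1), 0, 1, (-3276 / 4645), (-19152 / 27073), (19152 / 27073), (3276 / 4645)],
    ![0, (-1), 0, 1, 0, (-3276 / 4645), (3276 / 4645), (19152 / 27073), (-19152 / 27073)],
    ![0, 0, 1, 0, (-1), (19152 / 27073), (3276 / 4645), (-3276 / 4645), (-19152 / 27073)],
    ![0, 1, 0, (-1), 0, (19152 / 27073), (-19152 / 27073), (-3276 / 4645), (3276 / 4645)],
    ![1, (-3276 / 4645), (-3276 / 4645), (19152 / 27073), (19152 / 27073), 0, 0, 1, 0],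
    ![(-1), (-19152 / 27073), (3276 / 4645), (3276 / 4645), (-19152 / 27073), 0, 0, 0, (-1)],
    ![1, (19152 / 27073), (19152 / 27073), (-3276 / 4645), (-3276 / 4645), 1, 0, 0, 0],
    ![(-1), (3276 / 4645), (-19152 / 27073), (-19152 / 27073), (3276 / 4645), 0, (-1), 0, 0]]
noncomputable def WT (x w1 w2 : ℝ) : Fin 9 → Fin 9 → ℝ := ![
    ![0, 1, 1, 1, 1, (704969 / 250047) * x, (704969 / 250047) * x, (704969 / 250047) * x, (704969 / 250047) * x],
    ![1, 0, x, (1 / 8), x, w1, w2, w2, w1],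
    ![1, x, 0, x, (1 / 8), w1, w1, w2, w2],
    ![1, (1 / 8), x, 0, x, w2, w1, w1, w2],
    ![1, x, (1 / 8), x, 0, w2, w2, w1, w1],
    ![(704969 / 250047) * x, w1, w1, w2, w2, 0, (704969 / 2000376), (704969 / 2000376) * x, (704969 / 2000376)],
    ![(704969 / 250047) * x, w2, w1, w1, w2, (704969 / 2000376), 0, (704969 / 2000376), (704969 / 2000376) * x],
    ![(704969 / 250047) * x, w2, w2, w1, w1, (704969 / 2000376) * x, (704969 / 2000376), 0, (704969 / 2000376)],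
    ![(704969 / 250047) * x, w1, w2, w2, w1, (704969 / 2000376), (704969 / 2000376) * x, (704969 / 2000376), 0]]
noncomputable def mm (m0 a : ℝ) : Fin 9 → ℝ := ![m0, a, a, a, a, (369 / 1000) * a, (369 / 1000) * a, (369 / 1000) * a, (369 / 1000) * a]

noncomputable def qq : Fin 9 → ℂ := fun i => ⟨X i, Y i⟩

noncomputable def cub (D : ℝ) : ℝ := (√D ^ 3)⁻¹

theorem D_eq : ∀ i j, (X j - X i) ^ 2 + (Y j - Y i) ^ 2 = DT i j := by
  simp only [Fin.forall_fin_succ, IsEmpty.forall_iff, Matrix.cons_val_zero, Matrix.cons_val_succ,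
    and_true, X, Y, DT]
  norm_num

theorem ER_eq : ∀ i j, ((X j - X i) ^ 2 - (Y j - Y i) ^ 2) / DT i j = ER i j := by
  simp only [Fin.forall_fin_succ, IsEmpty.forall_iff, Matrix.cons_val_zero, Matrix.cons_val_succ,
    and_true, X, Y, DT, ER]
  norm_num

theorem EI_eq : ∀ i j, 2 * (X j - X i) * (Y j - Y i) / DT i j = EI i j := by
  simp only [Fin.forall_fin_succ, IsEmpty.forall_iff, Matrix.cons_val_zero, Matrix.cons_val_succ,
    and_true, X, Y, DT, EI]
  norm_num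

theorem normSq_qq (i j : Fin 9) : normSq (qq j - qq i) = DT i j := by
  rw [← D_eq, normSq_apply]
  simp [qq]
  ring

theorem qq_inj : Function.Injective qq := by
  have h : ∀ i j, DT i j = 0 → i = j := by
    intro i j
    fin_cases i <;> fin_cases j <;> simp [DT]
  intro i j e
  exact h i j (by rw [← normSq_qq, e, sub_self, map_zero])

theorem ec_tab (i j : Fin 9) : ec qq i j = ⟨ER i j, EI i j⟩ := by
  have h : ec qq i j = (qq j - qq i) ^ 2 / (DT i j : ℝ) := by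
    rw [ec, div_pow, ← normSq_qq, normSq_eq_norm_sq]
    push_cast
    rfl
  rw [h, ← ER_eq, ← EI_eq]
  apply Complex.ext
  · rw [div_ofReal_re]; simp [qq, pow_two]
  · rw [div_ofReal_im]; simp [qq, pow_two]; ring_nf

theorem cub_scale (c D : ℝ) (hc : 0 < c) : cub (c ^ 2 * D) = (c ^ 3)⁻¹ * cub D := by
  rw [cub, cub, Real.sqrt_mul (sq_nonneg c), Real.sqrt_sq hc.le, mul_pow, mul_inv]

theorem cub_pos {D : ℝ} (h : 0 < D) : 0 < cub D := by
  have := Real.sqrt_pos.2 h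
  unfold cub
  positivity

theorem cub_sq {D : ℝ} (h : 0 < D) : cub D ^ 2 * D ^ 3 = 1 := by
  have hs : √D ≠ 0 := (Real.sqrt_pos.2 h).ne'
  have e : √D ^ 2 = D := Real.sq_sqrt h.le
  unfold cub
  generalize √D = r at hs e
  subst e
  field_simp

theorem cub_enc {D l u : ℝ} (h : 0 < D) (hu : 0 ≤ u) (h1 : l ^ 2 * D ^ 3 ≤ 1)
    (h2 : 1 ≤ u ^ 2 * D ^ 3) : l ≤ cub D ∧ cub D ≤ u := by
  have e := cub_sq h
  have p : 0 < D ^ 3 := by positivity
  exact ⟨(abs_le_of_sq_le_sq' (le_of_mul_le_mul_right (h1.trans e.ge) p) (cub_pos h).le).2,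
    (abs_le_of_sq_le_sq' (le_of_mul_le_mul_right (e.le.trans h2) p) hu).2⟩

theorem mul_enc {x y l1 u1 l2 u2 l u : ℝ} (hx : l1 ≤ x ∧ x ≤ u1) (hy : l2 ≤ y ∧ y ≤ u2)
    (h1 : 0 ≤ l1) (h2 : 0 ≤ l2) (hl : l ≤ l1 * l2) (hu : u1 * u2 ≤ u) : l ≤ x * y ∧ x * y ≤ u :=
  ⟨hl.trans (mul_le_mul hx.1 hy.1 h2 (h1.trans hx.1)),
    (mul_le_mul hx.2 hy.2 (h2.trans hy.1) (h1.trans (hx.1.trans hx.2))).trans hu⟩

theorem wc_tab (i j : Fin 9) : wc qq i j = WT (cub 2) (cub (4645 / 7921)) (cub (27073 / 7921)) i j := by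
  have e : wc qq i j = cub (DT i j) := by rw [wc, cub, norm_def, normSq_qq]
  have h0 : cub 0 = 0 := by simp [cub]
  have h1 : cub 1 = 1 := by simp [cub]
  have hx : cub 2 = cub 2 := rfl
  have h4 : cub 4 = 1 / 8 := by
    have := cub_scale 2 1 (by norm_num)
    rw [h1] at this
    convert this using 1 <;> norm_num
  have h5 : cub (7938 / 7921) = (704969 / 250047) * cub 2 := by
    have := cub_scale (63 / 89) 2 (by norm_num)
    convert this using 2 <;> norm_num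
  have h6 : cub (15876 / 7921) = (704969 / 2000376) := by
    have := cub_scale (2 * (63 / 89)) 1 (by norm_num)
    rw [h1] at this
    convert this using 1
    · congr 1; norm_num
    · norm_num
  have h7 : cub (31752 / 7921) = (704969 / 2000376) * cub 2 := by
    have := cub_scale (2 * (63 / 89)) 2 (by norm_num)
    convert this using 2 <;> norm_num
  have h8 : cub (4645 / 7921) = cub (4645 / 7921) := rfl
  have h9 : cub (27073 / 7921) = cub (27073 / 7921) := rfl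
  rw [e]
  fin_cases i <;> fin_cases j
  exacts [h0, h1, h1, h1, h1, h5, h5, h5, h5, h1, h0, hx, h4, hx, h8, h9, h9, h8, h1, hx, h0, hx, h4, h8, h8, h9, h9, h1, h4, hx, h0, hx, h9, h8, h8, h9, h1, hx, h4, hx, h0, h9, h9, h8, h8, h5, h8, h8, h9, h9, h0, h6, h7, h6, h5, h9, h8, h8, h9, h6, h0, h6, h7, h5, h9, h9, h8, h8, h7, h6, h0, h6, h5, h8, h9, h9, h8, h6, h7, h6, h0]

/-- enclosures of the six products that occur in the blocks -/
def Enc (m0 a x w1 w2 : ℝ) : Prop :=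
  ((990757299325911741898048 / 10 ^ 24) ≤ m0 ∧ m0 ≤ (990757299325911741898051 / 10 ^ 24)) ∧
  ((35028560243171112158746 / 10 ^ 23) ≤ m0 * x ∧ m0 * x ≤ (35028560243171112158749 / 10 ^ 23)) ∧
  ((564724201118390593124455 / 10 ^ 26) ≤ a ∧ a ≤ (564724201118390593124458 / 10 ^ 26)) ∧
  ((19966015605548483694638 / 10 ^ 25) ≤ a * x ∧ a * x ≤ (19966015605548483694641 / 10 ^ 25)) ∧
  ((125755747246442751103065 / 10 ^ 25) ≤ a * w1 ∧ a * w1 ≤ (125755747246442751103068 / 10 ^ 25)) ∧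
  ((8937207571118216331678 / 10 ^ 25) ≤ a * w2 ∧ a * w2 ≤ (8937207571118216331681 / 10 ^ 25))

theorem params : ∃ m0 a x w1 w2 : ℝ, (∀ i j, wc qq i j = WT x w1 w2 i j) ∧
    m0 + 2 * (a * x) + (1 / 4) * a + (4797 / 22250) * (a * w1) + (14022 / 11125) * (a * w2) = 1 ∧
    (704969 / 250047) * (m0 * x) + (28903729 / 111132000) * (a + a * x) + (37 / 63) * (a * w1) + (215 / 63) * (a * w2) = 1 ∧
    Enc m0 a x w1 w2 := by
  obtain ⟨x, w1, w2, hW, hx2, hx, h1, h2⟩ : ∃ x w1 w2 : ℝ, (∀ i j, wc qq i j = WT x w1 w2 i j) ∧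
      x ^ 2 * 2 ^ 3 = 1 ∧ ((353553390593273762200422181051 / 10 ^ 30) ≤ x ∧ x ≤ (353553390593273762200422181054 / 10 ^ 30)) ∧
      ((2226852452885739048277256725228 / 10 ^ 30) ≤ w1 ∧ w1 ≤ (2226852452885739048277256725231 / 10 ^ 30)) ∧
      ((158257916933944034504639370439 / 10 ^ 30) ≤ w2 ∧ w2 ≤ (158257916933944034504639370442 / 10 ^ 30)) :=
    ⟨_, _, _, wc_tab, cub_sq (by norm_num),
      cub_enc (by norm_num) (by norm_num) (by norm_num) (by norm_num),
      cub_enc (by norm_num) (by norm_num) (by norm_num) (by norm_num),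
      cub_enc (by norm_num) (by norm_num) (by norm_num) (by norm_num)⟩
  have p1 : (78731123506870145576255856190 / 10 ^ 29) ≤ x * w1 ∧ x * w1 ≤ (78731123506870145576255856193 / 10 ^ 29) :=
    mul_enc hx h1 (by norm_num) (by norm_num) (by norm_num) (by norm_num)
  have p2 : (5595262312022458924679509986 / 10 ^ 29) ≤ x * w2 ∧ x * w2 ≤ (5595262312022458924679509989 / 10 ^ 29) :=
    mul_enc hx h2 (by norm_num) (by norm_num) (by norm_num) (by norm_num)
  obtain ⟨d, hd⟩ : ∃ d : ℝ, d = (37 / 63) * w1 + (215 / 63) * w2 - (444835439 / 1000188000) * (1 + x) - (4221893 / 6945750) * (x * w1) - (12340918 / 3472875) * (x * w2) := ⟨_, rfl⟩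
  have p3 : (568538683846287832215848408 / 10 ^ 27) ≤ d ∧ d ≤ (568538683846287832215848411 / 10 ^ 27) := by
    constructor <;> linarith [hx.1, hx.2, h1.1, h1.2, h2.1, h2.2, p1.1, p1.2, p2.1, p2.2]
  have d0 : 0 < d := by linarith [p3.1]
  obtain ⟨a, ha⟩ : ∃ a : ℝ, a = (1 - (704969 / 250047) * x) / d := ⟨_, rfl⟩
  have ha' : a * d = 1 - (704969 / 250047) * x := by rw [ha]; field_simp
  have p4 : (564724201118390593124455 / 10 ^ 26) ≤ a ∧ a ≤ (564724201118390593124458 / 10 ^ 26) := by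
    rw [ha, le_div_iff₀ d0, div_le_iff₀ d0]
    constructor <;> linarith [hx.1, hx.2, p3.1, p3.2]
  have p5 : (19966015605548483694638 / 10 ^ 25) ≤ a * x ∧ a * x ≤ (19966015605548483694641 / 10 ^ 25) :=
    mul_enc p4 hx (by norm_num) (by norm_num) (by norm_num) (by norm_num)
  have p6 : (125755747246442751103065 / 10 ^ 25) ≤ a * w1 ∧ a * w1 ≤ (125755747246442751103068 / 10 ^ 25) :=
    mul_enc p4 h1 (by norm_num) (by norm_num) (by norm_num) (by norm_num)
  have p7 : (8937207571118216331678 / 10 ^ 25) ≤ a * w2 ∧ a * w2 ≤ (8937207571118216331681 / 10 ^ 25) :=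
    mul_enc p4 h2 (by norm_num) (by norm_num) (by norm_num) (by norm_num)
  obtain ⟨m0, hm⟩ : ∃ m0 : ℝ, m0 = 1 - 2 * (a * x) - (1 / 4) * a - (4797 / 22250) * (a * w1) - (14022 / 11125) * (a * w2) := ⟨_, rfl⟩
  have p8 : (990757299325911741898048 / 10 ^ 24) ≤ m0 ∧ m0 ≤ (990757299325911741898051 / 10 ^ 24) := by
    constructor <;> linarith [p4.1, p4.2, p5.1, p5.2, p6.1, p6.2, p7.1, p7.2]
  have p9 : (35028560243171112158746 / 10 ^ 23) ≤ m0 * x ∧ m0 * x ≤ (35028560243171112158749 / 10 ^ 23) :=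
    mul_enc p8 hx (by norm_num) (by norm_num) (by norm_num) (by norm_num)
  refine ⟨m0, a, x, w1, w2, hW, by linarith, ?_, p8, p9, p4, p5, p6, p7⟩
  rw [hd] at ha'
  rw [hm]
  linear_combination ha' - (704969 / 250047) * a / 4 * hx2

/-- an invariant plane of the linearisation with frequency `σ` -/
def Osc (m : Fin 9 → ℝ) (σ : ℝ) : Prop :=
  ∃ u w : (Fin 9 → ℂ) × (Fin 9 → ℂ), u ≠ 0 ∧
    fderiv ℝ (rotField m 1) (qq, 0) u = σ • w ∧ fderiv ℝ (rotField m 1) (qq, 0) w = -σ • u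

theorem Osc.neg {m : Fin 9 → ℝ} {σ : ℝ} (h : Osc m σ) : Osc m (-σ) := by
  obtain ⟨u, w, h0, h1, h2⟩ := h
  exact ⟨u, -w, h0, by rw [h1]; simp, by rw [map_neg, h2]; simp⟩

/-- real and imaginary parts of the equations of a mode -/
def Eqn (m0 a x w1 w2 τ : ℝ) (ar ai br bi : Fin 9 → ℝ) : Prop := ∀ i,
  τ * ar i + ∑ j, mm m0 a j * WT x w1 w2 i j * (1 / 2 * (ar i - ar j) +
    3 / 2 * (ER i j * (br i - br j) + EI i j * (bi i - bi j))) = 0 ∧
  τ * ai i + ∑ j, mm m0 a j * WT x w1 w2 i j * (1 / 2 * (ai i - ai j) +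
    3 / 2 * (EI i j * (br i - br j) - ER i j * (bi i - bi j))) = 0

theorem eqn_opA {m0 a x w1 w2 τ : ℝ} (hW : ∀ i j, wc qq i j = WT x w1 w2 i j)
    {ar ai br bi : Fin 9 → ℝ} (h : Eqn m0 a x w1 w2 τ ar ai br bi) (i : Fin 9) :
    opA (mm m0 a) 1 qq (ec qq) (fun j => ⟨ar j, ai j⟩) (fun j => conj (⟨br j, bi j⟩ : ℂ)) i +
      ((τ - 1 : ℝ) : ℂ) * ⟨ar i, ai i⟩ = 0 := by
  apply Complex.ext
  · rw [zero_re, ← (h i).1, opA, add_re, add_re, re_sum, re_ofReal_mul, add_right_comm]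
    congr 1
    · simp; ring
    · refine sum_congr rfl fun j _ => ?_
      rw [re_ofReal_mul, hW, ec_tab]
      simp
      ring_nf
      simp
  · rw [zero_im, ← (h i).2, opA, add_im, add_im, im_sum, im_ofReal_mul, add_right_comm]
    congr 1
    · simp; ring
    · refine sum_congr rfl fun j _ => ?_
      rw [im_ofReal_mul, hW, ec_tab]
      simp
      ring_nf
      simp

theorem mode_real {m0 a x w1 w2 : ℝ} (hW : ∀ i j, wc qq i j = WT x w1 w2 i j) {σ : ℝ}
    (hσ : σ ≠ 0) (ar ai br bi : Fin 9 → ℝ) (h1 : Eqn m0 a x w1 w2 ((σ + 1) ^ 2) ar ai br bi)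
    (h2 : Eqn m0 a x w1 w2 ((σ + -1) ^ 2) br bi ar ai)
    (h0 : ¬ ((∀ i, ar i = 0) ∧ (∀ i, ai i = 0) ∧ (∀ i, br i = 0) ∧ ∀ i, bi i = 0)) :
    Osc (mm m0 a) σ := by
  refine mode (mm m0 a) qq_inj σ (fun j => ⟨ar j, ai j⟩) (fun j => ⟨br j, bi j⟩)
    (fun i => ?_) (fun i => ?_) hσ fun z => h0 ?_
  · convert eqn_opA hW h1 i using 3
    push_cast; ring
  · convert eqn_opA hW h2 i using 3
    push_cast; ring
  · exact ⟨fun i => congrArg re (congrFun z.1 i), fun i => congrArg im (congrFun z.1 i),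
      fun i => congrArg re (congrFun z.2 i), fun i => congrArg im (congrFun z.2 i)⟩


noncomputable def N0 (m0 a x w1 w2 : ℝ) : Matrix (Fin 4) (Fin 4) ℝ := Matrix.of ![
    ![(1 / 2) * m0 + (1 / 8) * a + 1 * (a * x) + (369 / 1000) * (a * w1) + (369 / 1000) * (a * w2), (3 / 2) * m0 + (3 / 8) * a + 3 * (a * x) + (-3645351 / 4645000) * (a * w1) + (4236489 / 5414600) * (a * w2), (-23247 / 89000) * (a * w1) + (23247 / 89000) * (a * w2), (458128629 / 413405000) * (a * w1) + (2670173667 / 2409497000) * (a * w2)],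
    ![(3 / 2) * m0 + (3 / 8) * a + 3 * (a * x) + (-3645351 / 4645000) * (a * w1) + (4236489 / 5414600) * (a * w2), (1 / 2) * m0 + (1 / 8) * a + 1 * (a * x) + (369 / 1000) * (a * w1) + (369 / 1000) * (a * w2), (458128629 / 413405000) * (a * w1) + (2670173667 / 2409497000) * (a * w2), (-23247 / 89000) * (a * w1) + (23247 / 89000) * (a * w2)],
    ![(-89 / 126) * (a * w1) + (89 / 126) * (a * w2), (584641 / 195090) * (a * w1) + (3407543 / 1137066) * (a * w2), (704969 / 500094) * (m0 * x) + (28903729 / 222264000) * a + (28903729 / 222264000) * (a * x) + 1 * (a * w1) + 1 * (a * w2), (704969 / 166698) * (m0 * x) + (28903729 / 74088000) * a + (28903729 / 74088000) * (a * x) + (-9828 / 4645) * (a * w1) + (57456 / 27073) * (a * w2)],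
    ![(584641 / 195090) * (a * w1) + (3407543 / 1137066) * (a * w2), (-89 / 126) * (a * w1) + (89 / 126) * (a * w2), (704969 / 166698) * (m0 * x) + (28903729 / 74088000) * a + (28903729 / 74088000) * (a * x) + (-9828 / 4645) * (a * w1) + (57456 / 27073) * (a * w2), (704969 / 500094) * (m0 * x) + (28903729 / 222264000) * a + (28903729 / 222264000) * (a * x) + 1 * (a * w1) + 1 * (a * w2)]]
noncomputable def A0 : Matrix (Fin 4) (Fin 4) ℝ := Matrix.of ![
    ![(50305132650767670726 / 10 ^ 20), (148507354482080081435 / 10 ^ 20), (-305132650767670726 / 10 ^ 20), (1492645517919918565 / 10 ^ 20)],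
    ![(148507354482080081435 / 10 ^ 20), (50305132650767670726 / 10 ^ 20), (1492645517919918565 / 10 ^ 20), (-305132650767670726 / 10 ^ 20)],
    ![(-825146827865387587 / 10 ^ 20), (4036446808102794951 / 10 ^ 20), (50825146827865387587 / 10 ^ 20), (145963553191897205049 / 10 ^ 20)],
    ![(4036446808102794951 / 10 ^ 20), (-825146827865387587 / 10 ^ 20), (145963553191897205049 / 10 ^ 20), (50825146827865387587 / 10 ^ 20)]]
noncomputable def T0 : Fin 4 → ℝ := ![1, (-1), 1, (-1)]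
theorem N0_near {m0 a x w1 w2 : ℝ} (h : Enc m0 a x w1 w2) :
    ∀ i j, |N0 m0 a x w1 w2 i j - A0 i j| ≤ 1 / 10 ^ 17 := by
  obtain ⟨⟨a1, a2⟩, ⟨b1, b2⟩, ⟨c1, c2⟩, ⟨d1, d2⟩, ⟨e1, e2⟩, f1, f2⟩ := h
  simp only [Fin.forall_fin_succ, IsEmpty.forall_iff,
      Matrix.cons_val_zero, Matrix.cons_val_succ, and_true, Matrix.of_apply, N0, A0, abs_le]
  repeat' apply And.intro
  all_goals linarith

theorem A0_le : ∀ i j, |A0 i j| ≤ 2 := by
  simp only [Fin.forall_fin_succ, IsEmpty.forall_iff,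
      Matrix.cons_val_zero, Matrix.cons_val_succ, and_true, Matrix.of_apply, A0, abs_le]
  repeat' apply And.intro
  all_goals norm_num

theorem T0_le : ∀ i, |T0 i| ≤ 1 := by
  simp only [Fin.forall_fin_succ, IsEmpty.forall_iff,
      Matrix.cons_val_zero, Matrix.cons_val_succ, and_true, T0]
  norm_num

theorem blk0 (c : ℝ) : blk A0 T0 c = !![(50305132650767670726 / 10 ^ 20) + (c + 1) ^ 2, (148507354482080081435 / 10 ^ 20), (-305132650767670726 / 10 ^ 20), (1492645517919918565 / 10 ^ 20);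
    (148507354482080081435 / 10 ^ 20), (50305132650767670726 / 10 ^ 20) + (c + (-1)) ^ 2, (1492645517919918565 / 10 ^ 20), (-305132650767670726 / 10 ^ 20);
    (-825146827865387587 / 10 ^ 20), (4036446808102794951 / 10 ^ 20), (50825146827865387587 / 10 ^ 20) + (c + 1) ^ 2, (145963553191897205049 / 10 ^ 20);
    (4036446808102794951 / 10 ^ 20), (-825146827865387587 / 10 ^ 20), (145963553191897205049 / 10 ^ 20), (50825146827865387587 / 10 ^ 20) + (c + (-1)) ^ 2] := by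
  ext i j
  fin_cases i <;> fin_cases j <;> simp [blk, A0, T0]

theorem eqn0_1 {m0 a x w1 w2 σ : ℝ} {v : Fin 4 → ℝ}
    (h : blk (N0 m0 a x w1 w2) T0 σ *ᵥ v = 0) : Eqn m0 a x w1 w2 ((σ + 1) ^ 2)
    ![0, 1 * v 0, 0, (-1) * v 0, 0, (63 / 89) * v (Fin.succ (Fin.succ 0)), (-63 / 89) * v (Fin.succ (Fin.succ 0)), (-63 / 89) * v (Fin.succ (Fin.succ 0)), (63 / 89) * v (Fin.succ (Fin.succ 0))]
    ![0, 0, 1 * v 0, 0, (-1) * v 0, (63 / 89) * v (Fin.succ (Fin.succ 0)), (63 / 89) * v (Fin.succ (Fin.succ 0)), (-63 / 89) * v (Fin.succ (Fin.succ 0)), (-63 / 89) * v (Fin.succ (Fin.succ 0))]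
    ![0, 1 * v (Fin.succ 0), 0, (-1) * v (Fin.succ 0), 0, (63 / 89) * v (Fin.succ (Fin.succ (Fin.succ 0))), (-63 / 89) * v (Fin.succ (Fin.succ (Fin.succ 0))), (-63 / 89) * v (Fin.succ (Fin.succ (Fin.succ 0))), (63 / 89) * v (Fin.succ (Fin.succ (Fin.succ 0)))]
    ![0, 0, 1 * v (Fin.succ 0), 0, (-1) * v (Fin.succ 0), (63 / 89) * v (Fin.succ (Fin.succ (Fin.succ 0))), (63 / 89) * v (Fin.succ (Fin.succ (Fin.succ 0))), (-63 / 89) * v (Fin.succ (Fin.succ (Fin.succ 0))), (-63 / 89) * v (Fin.succ (Fin.succ (Fin.succ 0)))] := by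
  have H := blk_row h
  simp only [Fin.forall_fin_succ, Fin.sum_univ_succ, Fin.sum_univ_zero, IsEmpty.forall_iff,
      Matrix.cons_val_zero, Matrix.cons_val_succ, and_true, Matrix.of_apply, N0, T0] at H
  obtain ⟨r0, r1, r2, r3⟩ := H
  simp only [Fin.forall_fin_succ, Fin.sum_univ_succ, Fin.sum_univ_zero, IsEmpty.forall_iff,
      Matrix.cons_val_zero, Matrix.cons_val_succ, and_true, Eqn, mm, WT, ER, EI]
  refine ⟨⟨?_, ?_⟩, ⟨?_, ?_⟩, ⟨?_, ?_⟩, ⟨?_, ?_⟩, ⟨?_, ?_⟩, ⟨?_, ?_⟩, ⟨?_, ?_⟩, ⟨?_, ?_⟩, ⟨?_, ?_⟩⟩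
  · ring
  · ring
  · linear_combination 1 * r0
  · ring
  · ring
  · linear_combination 1 * r0
  · linear_combination (-1) * r0
  · ring
  · ring
  · linear_combination (-1) * r0
  · linear_combination (63 / 89) * r2
  · linear_combination (63 / 89) * r2
  · linear_combination (-63 / 89) * r2
  · linear_combination (63 / 89) * r2
  · linear_combination (-63 / 89) * r2
  · linear_combination (-63 / 89) * r2
  · linear_combination (63 / 89) * r2
  · linear_combination (-63 / 89) * r2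

theorem eqn0_2 {m0 a x w1 w2 σ : ℝ} {v : Fin 4 → ℝ}
    (h : blk (N0 m0 a x w1 w2) T0 σ *ᵥ v = 0) : Eqn m0 a x w1 w2 ((σ + -1) ^ 2)
    ![0, 1 * v (Fin.succ 0), 0, (-1) * v (Fin.succ 0), 0, (63 / 89) * v (Fin.succ (Fin.succ (Fin.succ 0))), (-63 / 89) * v (Fin.succ (Fin.succ (Fin.succ 0))), (-63 / 89) * v (Fin.succ (Fin.succ (Fin.succ 0))), (63 / 89) * v (Fin.succ (Fin.succ (Fin.succ 0)))]
    ![0, 0, 1 * v (Fin.succ 0), 0, (-1) * v (Fin.succ 0), (63 / 89) * v (Fin.succ (Fin.succ (Fin.succ 0))), (63 / 89) * v (Fin.succ (Fin.succ (Fin.succ 0))), (-63 / 89) * v (Fin.succ (Fin.succ (Fin.succ 0))), (-63 / 89) * v (Fin.succ (Fin.succ (Fin.succ 0)))]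
    ![0, 1 * v 0, 0, (-1) * v 0, 0, (63 / 89) * v (Fin.succ (Fin.succ 0)), (-63 / 89) * v (Fin.succ (Fin.succ 0)), (-63 / 89) * v (Fin.succ (Fin.succ 0)), (63 / 89) * v (Fin.succ (Fin.succ 0))]
    ![0, 0, 1 * v 0, 0, (-1) * v 0, (63 / 89) * v (Fin.succ (Fin.succ 0)), (63 / 89) * v (Fin.succ (Fin.succ 0)), (-63 / 89) * v (Fin.succ (Fin.succ 0)), (-63 / 89) * v (Fin.succ (Fin.succ 0))] := by
  have H := blk_row h
  simp only [Fin.forall_fin_succ, Fin.sum_univ_succ, Fin.sum_univ_zero, IsEmpty.forall_iff,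
      Matrix.cons_val_zero, Matrix.cons_val_succ, and_true, Matrix.of_apply, N0, T0] at H
  obtain ⟨r0, r1, r2, r3⟩ := H
  simp only [Fin.forall_fin_succ, Fin.sum_univ_succ, Fin.sum_univ_zero, IsEmpty.forall_iff,
      Matrix.cons_val_zero, Matrix.cons_val_succ, and_true, Eqn, mm, WT, ER, EI]
  refine ⟨⟨?_, ?_⟩, ⟨?_, ?_⟩, ⟨?_, ?_⟩, ⟨?_, ?_⟩, ⟨?_, ?_⟩, ⟨?_, ?_⟩, ⟨?_, ?_⟩, ⟨?_, ?_⟩, ⟨?_, ?_⟩⟩
  · ring
  · ring
  · linear_combination 1 * r1
  · ring
  · ring
  · linear_combination 1 * r1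
  · linear_combination (-1) * r1
  · ring
  · ring
  · linear_combination (-1) * r1
  · linear_combination (63 / 89) * r3
  · linear_combination (63 / 89) * r3
  · linear_combination (-63 / 89) * r3
  · linear_combination (63 / 89) * r3
  · linear_combination (-63 / 89) * r3
  · linear_combination (-63 / 89) * r3
  · linear_combination (63 / 89) * r3
  · linear_combination (-63 / 89) * r3

theorem mode0 {m0 a x w1 w2 : ℝ} (hW : ∀ i j, wc qq i j = WT x w1 w2 i j) {σ : ℝ} (hσ : σ ≠ 0)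
    {v : Fin 4 → ℝ} (hv : v ≠ 0) (h : blk (N0 m0 a x w1 w2) T0 σ *ᵥ v = 0) :
    Osc (mm m0 a) σ := by
  refine mode_real hW hσ _ _ _ _ (eqn0_1 h) (eqn0_2 h) fun z => hv ?_
  have z1 : 1 * v 0 = 0 := z.1 1
  have z2 : (63 / 89) * v (Fin.succ (Fin.succ 0)) = 0 := z.1 5
  have z3 : 1 * v (Fin.succ 0) = 0 := z.2.2.1 1
  have z4 : (63 / 89) * v (Fin.succ (Fin.succ (Fin.succ 0))) = 0 := z.2.2.1 5
  have z5 : (63 / 89) * v (Fin.succ (Fin.succ (Fin.succ 0))) = 0 := z.2.2.2 5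
  rw [funext_iff]
  simp only [Fin.forall_fin_succ, IsEmpty.forall_iff, and_true, Pi.zero_apply]
  repeat' apply And.intro
  all_goals linarith

theorem root0_0 {m0 a x w1 w2 : ℝ} (hW : ∀ i j, wc qq i j = WT x w1 w2 i j)
    (h : Enc m0 a x w1 w2) : ∃ σ, (13 / 25) < σ ∧ σ < (3 / 5) ∧ Osc (mm m0 a) σ := by
  obtain ⟨σ, h1, h2, v, hv, h3⟩ := blk_root (by norm_num) _ _ _ T0_le A0_le (N0_near h)
    (a := (13 / 25)) (b := (3 / 5)) (by norm_num) (by norm_num) (by norm_num)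
    (Or.inl (by rw [blk0, blk0, det4, det4]; norm_num))
  exact ⟨σ, h1, h2, mode0 hW (by linarith : 0 < σ).ne' hv h3⟩

theorem root0_1 {m0 a x w1 w2 : ℝ} (hW : ∀ i j, wc qq i j = WT x w1 w2 i j)
    (h : Enc m0 a x w1 w2) : ∃ σ, (4 / 5) < σ ∧ σ < (21 / 25) ∧ Osc (mm m0 a) σ := by
  obtain ⟨σ, h1, h2, v, hv, h3⟩ := blk_root (by norm_num) _ _ _ T0_le A0_le (N0_near h)
    (a := (4 / 5)) (b := (21 / 25)) (by norm_num) (by norm_num) (by norm_num)
    (Or.inr (by rw [blk0, blk0, det4, det4]; norm_num))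
  exact ⟨σ, h1, h2, mode0 hW (by linarith : 0 < σ).ne' hv h3⟩

noncomputable def N2 (m0 a x w1 w2 : ℝ) : Matrix (Fin 4) (Fin 4) ℝ := Matrix.of ![
    ![(1 / 2) * m0 + (1 / 8) * a + 1 * (a * x) + (369 / 1000) * (a * w1) + (369 / 1000) * (a * w2), (3 / 2) * m0 + (3 / 8) * a + (-3) * (a * x) + (-3645351 / 4645000) * (a * w1) + (4236489 / 5414600) * (a * w2), (-23247 / 89000) * (a * w1) + (23247 / 89000) * (a * w2), (1185597 / 413405000) * (a * w1) + (-1185597 / 2409497000) * (a * w2)],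
    ![(3 / 2) * m0 + (3 / 8) * a + (-3) * (a * x) + (-3645351 / 4645000) * (a * w1) + (4236489 / 5414600) * (a * w2), (1 / 2) * m0 + (1 / 8) * a + 1 * (a * x) + (369 / 1000) * (a * w1) + (369 / 1000) * (a * w2), (1185597 / 413405000) * (a * w1) + (-1185597 / 2409497000) * (a * w2), (-23247 / 89000) * (a * w1) + (23247 / 89000) * (a * w2)],
    ![(-89 / 126) * (a * w1) + (89 / 126) * (a * w2), (1513 / 195090) * (a * w1) + (-1513 / 1137066) * (a * w2), (704969 / 500094) * (m0 * x) + (28903729 / 222264000) * a + (28903729 / 222264000) * (a * x) + 1 * (a * w1) + 1 * (a * w2), (-704969 / 166698) * (m0 * x) + (28903729 / 74088000) * a + (-28903729 / 74088000) * (a * x) + (9828 / 4645) * (a * w1) + (-57456 / 27073) * (a * w2)],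
    ![(1513 / 195090) * (a * w1) + (-1513 / 1137066) * (a * w2), (-89 / 126) * (a * w1) + (89 / 126) * (a * w2), (-704969 / 166698) * (m0 * x) + (28903729 / 74088000) * a + (-28903729 / 74088000) * (a * x) + (9828 / 4645) * (a * w1) + (-57456 / 27073) * (a * w2), (704969 / 500094) * (m0 * x) + (28903729 / 222264000) * a + (28903729 / 222264000) * (a * x) + 1 * (a * w1) + 1 * (a * w2)]]
noncomputable def A2 : Matrix (Fin 4) (Fin 4) ℝ := Matrix.of ![
    ![(50305132650767670726 / 10 ^ 20), (147309393545747172413 / 10 ^ 20), (-305132650767670726 / 10 ^ 20), (3562551496496691 / 10 ^ 20)],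
    ![(147309393545747172413 / 10 ^ 20), (50305132650767670726 / 10 ^ 20), (3562551496496691 / 10 ^ 20), (-305132650767670726 / 10 ^ 20)],
    ![(-825146827865387587 / 10 ^ 20), (9633934811779876 / 10 ^ 20), (50825146827865387587 / 10 ^ 20), (-145522924877760841303 / 10 ^ 20)],
    ![(9633934811779876 / 10 ^ 20), (-825146827865387587 / 10 ^ 20), (-145522924877760841303 / 10 ^ 20), (50825146827865387587 / 10 ^ 20)]]
noncomputable def T2 : Fin 4 → ℝ := ![1, (-1), 1, (-1)]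
theorem N2_near {m0 a x w1 w2 : ℝ} (h : Enc m0 a x w1 w2) :
    ∀ i j, |N2 m0 a x w1 w2 i j - A2 i j| ≤ 1 / 10 ^ 17 := by
  obtain ⟨⟨a1, a2⟩, ⟨b1, b2⟩, ⟨c1, c2⟩, ⟨d1, d2⟩, ⟨e1, e2⟩, f1, f2⟩ := h
  simp only [Fin.forall_fin_succ, IsEmpty.forall_iff,
      Matrix.cons_val_zero, Matrix.cons_val_succ, and_true, Matrix.of_apply, N2, A2, abs_le]
  repeat' apply And.intro
  all_goals linarith

theorem A2_le : ∀ i j, |A2 i j| ≤ 2 := by
  simp only [Fin.forall_fin_succ, IsEmpty.forall_iff,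
      Matrix.cons_val_zero, Matrix.cons_val_succ, and_true, Matrix.of_apply, A2, abs_le]
  repeat' apply And.intro
  all_goals norm_num

theorem T2_le : ∀ i, |T2 i| ≤ 1 := by
  simp only [Fin.forall_fin_succ, IsEmpty.forall_iff,
      Matrix.cons_val_zero, Matrix.cons_val_succ, and_true, T2]
  norm_num

theorem blk2 (c : ℝ) : blk A2 T2 c = !![(50305132650767670726 / 10 ^ 20) + (c + 1) ^ 2, (147309393545747172413 / 10 ^ 20), (-305132650767670726 / 10 ^ 20), (3562551496496691 / 10 ^ 20);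
    (147309393545747172413 / 10 ^ 20), (50305132650767670726 / 10 ^ 20) + (c + (-1)) ^ 2, (3562551496496691 / 10 ^ 20), (-305132650767670726 / 10 ^ 20);
    (-825146827865387587 / 10 ^ 20), (9633934811779876 / 10 ^ 20), (50825146827865387587 / 10 ^ 20) + (c + 1) ^ 2, (-145522924877760841303 / 10 ^ 20);
    (9633934811779876 / 10 ^ 20), (-825146827865387587 / 10 ^ 20), (-145522924877760841303 / 10 ^ 20), (50825146827865387587 / 10 ^ 20) + (c + (-1)) ^ 2] := by
  ext i j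
  fin_cases i <;> fin_cases j <;> simp [blk, A2, T2]

theorem eqn2_1 {m0 a x w1 w2 σ : ℝ} {v : Fin 4 → ℝ}
    (h : blk (N2 m0 a x w1 w2) T2 σ *ᵥ v = 0) : Eqn m0 a x w1 w2 ((σ + 1) ^ 2)
    ![0, 1 * v 0, 0, (-1) * v 0, 0, (63 / 89) * v (Fin.succ (Fin.succ 0)), (-63 / 89) * v (Fin.succ (Fin.succ 0)), (-63 / 89) * v (Fin.succ (Fin.succ 0)), (63 / 89) * v (Fin.succ (Fin.succ 0))]
    ![0, 0, (-1) * v 0, 0, 1 * v 0, (-63 / 89) * v (Fin.succ (Fin.succ 0)), (-63 / 89) * v (Fin.succ (Fin.succ 0)), (63 / 89) * v (Fin.succ (Fin.succ 0)), (63 / 89) * v (Fin.succ (Fin.succ 0))]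
    ![0, 1 * v (Fin.succ 0), 0, (-1) * v (Fin.succ 0), 0, (63 / 89) * v (Fin.succ (Fin.succ (Fin.succ 0))), (-63 / 89) * v (Fin.succ (Fin.succ (Fin.succ 0))), (-63 / 89) * v (Fin.succ (Fin.succ (Fin.succ 0))), (63 / 89) * v (Fin.succ (Fin.succ (Fin.succ 0)))]
    ![0, 0, (-1) * v (Fin.succ 0), 0, 1 * v (Fin.succ 0), (-63 / 89) * v (Fin.succ (Fin.succ (Fin.succ 0))), (-63 / 89) * v (Fin.succ (Fin.succ (Fin.succ 0))), (63 / 89) * v (Fin.succ (Fin.succ (Fin.succ 0))), (63 / 89) * v (Fin.succ (Fin.succ (Fin.succ 0)))] := by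
  have H := blk_row h
  simp only [Fin.forall_fin_succ, Fin.sum_univ_succ, Fin.sum_univ_zero, IsEmpty.forall_iff,
      Matrix.cons_val_zero, Matrix.cons_val_succ, and_true, Matrix.of_apply, N2, T2] at H
  obtain ⟨r0, r1, r2, r3⟩ := H
  simp only [Fin.forall_fin_succ, Fin.sum_univ_succ, Fin.sum_univ_zero, IsEmpty.forall_iff,
      Matrix.cons_val_zero, Matrix.cons_val_succ, and_true, Eqn, mm, WT, ER, EI]
  refine ⟨⟨?_, ?_⟩, ⟨?_, ?_⟩, ⟨?_, ?_⟩, ⟨?_, ?_⟩, ⟨?_, ?_⟩, ⟨?_, ?_⟩, ⟨?_, ?_⟩, ⟨?_, ?_⟩, ⟨?_, ?_⟩⟩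
  · ring
  · ring
  · linear_combination 1 * r0
  · ring
  · ring
  · linear_combination (-1) * r0
  · linear_combination (-1) * r0
  · ring
  · ring
  · linear_combination 1 * r0
  · linear_combination (63 / 89) * r2
  · linear_combination (-63 / 89) * r2
  · linear_combination (-63 / 89) * r2
  · linear_combination (-63 / 89) * r2
  · linear_combination (-63 / 89) * r2
  · linear_combination (63 / 89) * r2
  · linear_combination (63 / 89) * r2
  · linear_combination (63 / 89) * r2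

theorem eqn2_2 {m0 a x w1 w2 σ : ℝ} {v : Fin 4 → ℝ}
    (h : blk (N2 m0 a x w1 w2) T2 σ *ᵥ v = 0) : Eqn m0 a x w1 w2 ((σ + -1) ^ 2)
    ![0, 1 * v (Fin.succ 0), 0, (-1) * v (Fin.succ 0), 0, (63 / 89) * v (Fin.succ (Fin.succ (Fin.succ 0))), (-63 / 89) * v (Fin.succ (Fin.succ (Fin.succ 0))), (-63 / 89) * v (Fin.succ (Fin.succ (Fin.succ 0))), (63 / 89) * v (Fin.succ (Fin.succ (Fin.succ 0)))]
    ![0, 0, (-1) * v (Fin.succ 0), 0, 1 * v (Fin.succ 0), (-63 / 89) * v (Fin.succ (Fin.succ (Fin.succ 0))), (-63 / 89) * v (Fin.succ (Fin.succ (Fin.succ 0))), (63 / 89) * v (Fin.succ (Fin.succ (Fin.succ 0))), (63 / 89) * v (Fin.succ (Fin.succ (Fin.succ 0)))]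
    ![0, 1 * v 0, 0, (-1) * v 0, 0, (63 / 89) * v (Fin.succ (Fin.succ 0)), (-63 / 89) * v (Fin.succ (Fin.succ 0)), (-63 / 89) * v (Fin.succ (Fin.succ 0)), (63 / 89) * v (Fin.succ (Fin.succ 0))]
    ![0, 0, (-1) * v 0, 0, 1 * v 0, (-63 / 89) * v (Fin.succ (Fin.succ 0)), (-63 / 89) * v (Fin.succ (Fin.succ 0)), (63 / 89) * v (Fin.succ (Fin.succ 0)), (63 / 89) * v (Fin.succ (Fin.succ 0))] := by
  have H := blk_row h
  simp only [Fin.forall_fin_succ, Fin.sum_univ_succ, Fin.sum_univ_zero, IsEmpty.forall_iff,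
      Matrix.cons_val_zero, Matrix.cons_val_succ, and_true, Matrix.of_apply, N2, T2] at H
  obtain ⟨r0, r1, r2, r3⟩ := H
  simp only [Fin.forall_fin_succ, Fin.sum_univ_succ, Fin.sum_univ_zero, IsEmpty.forall_iff,
      Matrix.cons_val_zero, Matrix.cons_val_succ, and_true, Eqn, mm, WT, ER, EI]
  refine ⟨⟨?_, ?_⟩, ⟨?_, ?_⟩, ⟨?_, ?_⟩, ⟨?_, ?_⟩, ⟨?_, ?_⟩, ⟨?_, ?_⟩, ⟨?_, ?_⟩, ⟨?_, ?_⟩, ⟨?_, ?_⟩⟩
  · ring
  · ring
  · linear_combination 1 * r1
  · ring
  · ring
  · linear_combination (-1) * r1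
  · linear_combination (-1) * r1
  · ring
  · ring
  · linear_combination 1 * r1
  · linear_combination (63 / 89) * r3
  · linear_combination (-63 / 89) * r3
  · linear_combination (-63 / 89) * r3
  · linear_combination (-63 / 89) * r3
  · linear_combination (-63 / 89) * r3
  · linear_combination (63 / 89) * r3
  · linear_combination (63 / 89) * r3
  · linear_combination (63 / 89) * r3

theorem mode2 {m0 a x w1 w2 : ℝ} (hW : ∀ i j, wc qq i j = WT x w1 w2 i j) {σ : ℝ} (hσ : σ ≠ 0)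
    {v : Fin 4 → ℝ} (hv : v ≠ 0) (h : blk (N2 m0 a x w1 w2) T2 σ *ᵥ v = 0) :
    Osc (mm m0 a) σ := by
  refine mode_real hW hσ _ _ _ _ (eqn2_1 h) (eqn2_2 h) fun z => hv ?_
  have z1 : 1 * v 0 = 0 := z.1 1
  have z2 : (63 / 89) * v (Fin.succ (Fin.succ 0)) = 0 := z.1 5
  have z3 : 1 * v (Fin.succ 0) = 0 := z.2.2.1 1
  have z4 : (63 / 89) * v (Fin.succ (Fin.succ (Fin.succ 0))) = 0 := z.2.2.1 5
  have z5 : (-63 / 89) * v (Fin.succ (Fin.succ (Fin.succ 0))) = 0 := z.2.2.2 5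
  rw [funext_iff]
  simp only [Fin.forall_fin_succ, IsEmpty.forall_iff, and_true, Pi.zero_apply]
  repeat' apply And.intro
  all_goals linarith

theorem root2_0 {m0 a x w1 w2 : ℝ} (hW : ∀ i j, wc qq i j = WT x w1 w2 i j)
    (h : Enc m0 a x w1 w2) : ∃ σ, (1 / 5) < σ ∧ σ < (2 / 5) ∧ Osc (mm m0 a) σ := by
  obtain ⟨σ, h1, h2, v, hv, h3⟩ := blk_root (by norm_num) _ _ _ T2_le A2_le (N2_near h)
    (a := (1 / 5)) (b := (2 / 5)) (by norm_num) (by norm_num) (by norm_num)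
    (Or.inr (by rw [blk2, blk2, det4, det4]; norm_num))
  exact ⟨σ, h1, h2, mode2 hW (by linarith : 0 < σ).ne' hv h3⟩

theorem root2_1 {m0 a x w1 w2 : ℝ} (hW : ∀ i j, wc qq i j = WT x w1 w2 i j)
    (h : Enc m0 a x w1 w2) : ∃ σ, (2 / 5) < σ ∧ σ < (47 / 100) ∧ Osc (mm m0 a) σ := by
  obtain ⟨σ, h1, h2, v, hv, h3⟩ := blk_root (by norm_num) _ _ _ T2_le A2_le (N2_near h)
    (a := (2 / 5)) (b := (47 / 100)) (by norm_num) (by norm_num) (by norm_num)
    (Or.inl (by rw [blk2, blk2, det4, det4]; norm_num))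
  exact ⟨σ, h1, h2, mode2 hW (by linarith : 0 < σ).ne' hv h3⟩

theorem root2_2 {m0 a x w1 w2 : ℝ} (hW : ∀ i j, wc qq i j = WT x w1 w2 i j)
    (h : Enc m0 a x w1 w2) : ∃ σ, (87 / 100) < σ ∧ σ < (9 / 10) ∧ Osc (mm m0 a) σ := by
  obtain ⟨σ, h1, h2, v, hv, h3⟩ := blk_root (by norm_num) _ _ _ T2_le A2_le (N2_near h)
    (a := (87 / 100)) (b := (9 / 10)) (by norm_num) (by norm_num) (by norm_num)
    (Or.inr (by rw [blk2, blk2, det4, det4]; norm_num))
  exact ⟨σ, h1, h2, mode2 hW (by linarith : 0 < σ).ne' hv h3⟩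

theorem root2_3 {m0 a x w1 w2 : ℝ} (hW : ∀ i j, wc qq i j = WT x w1 w2 i j)
    (h : Enc m0 a x w1 w2) : ∃ σ, (9 / 10) < σ ∧ σ < (97 / 100) ∧ Osc (mm m0 a) σ := by
  obtain ⟨σ, h1, h2, v, hv, h3⟩ := blk_root (by norm_num) _ _ _ T2_le A2_le (N2_near h)
    (a := (9 / 10)) (b := (97 / 100)) (by norm_num) (by norm_num) (by norm_num)
    (Or.inl (by rw [blk2, blk2, det4, det4]; norm_num))
  exact ⟨σ, h1, h2, mode2 hW (by linarith : 0 < σ).ne' hv h3⟩

noncomputable def N1 (m0 a x w1 w2 : ℝ) : Matrix (Fin 5) (Fin 5) ℝ := Matrix.of ![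
    ![(1 / 2) * m0 + (369 / 1000) * (a * w1) + (369 / 1000) * (a * w2), (3 / 2) * m0 + (-3645351 / 4645000) * (a * w1) + (4236489 / 5414600) * (a * w2), (-369 / 1000) * (a * w1) + (-369 / 1000) * (a * w2), (3598426377 / 4599130625) * (a * w1) + (-21036954204 / 26805654125) * (a * w2), (-1 / 2) * m0],
    ![(3 / 2) * m0 + (-3645351 / 4645000) * (a * w1) + (4236489 / 5414600) * (a * w2), (1 / 2) * m0 + 2 * (a * x) + (369 / 1000) * (a * w1) + (369 / 1000) * (a * w2), (3645351 / 4645000) * (a * w1) + (-4236489 / 5414600) * (a * w2), 0, (-3 / 2) * m0],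
    ![(-1) * (a * w1) + (-1) * (a * w2), (9879 / 4645) * (a * w1) + (-57405 / 27073) * (a * w2), (704969 / 500094) * (m0 * x) + 1 * (a * w1) + 1 * (a * w2), (89 / 21) * (m0 * x) + (-78014664 / 36793045) * (a * w1) + (456085728 / 214445233) * (a * w2), (-704969 / 500094) * (m0 * x)],
    ![(205946 / 97545) * (a * w1) + (-1203992 / 568533) * (a * w2), 0, (5584059449 / 1323248724) * (m0 * x) + (-205946 / 97545) * (a * w1) + (1203992 / 568533) * (a * w2), (704969 / 500094) * (m0 * x) + (28903729 / 111132000) * a + 1 * (a * w1) + 1 * (a * w2), (-5584059449 / 1323248724) * (m0 * x)],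
    ![(-2) * a, (-6) * a, (-28903729 / 13891500) * (a * x), (-10947 / 1750) * (a * x), 2 * a + (28903729 / 13891500) * (a * x)]]
noncomputable def A1 : Matrix (Fin 5) (Fin 5) ℝ := Matrix.of ![
    ![(50034881969572387065 / 10 ^ 20), (147696602438494230452 / 10 ^ 20), (-497017003276799970 / 10 ^ 20), (913792376164893312 / 10 ^ 20), (-49537864966295587095 / 10 ^ 20)],
    ![(147696602438494230452 / 10 ^ 20), (50434202281683356739 / 10 ^ 20), (916992460392530833 / 10 ^ 20), 0, (-148613594898886761285 / 10 ^ 20)],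
    ![(-1346929548175609674 / 10 ^ 20), (2485074418407942636 / 10 ^ 20), (50725744503100275372 / 10 ^ 20), (145977972260487770660 / 10 ^ 20), (-49378814954924665698 / 10 ^ 20)],
    ![(2465806548784382885 / 10 ^ 20), 0, (145353389693830234270 / 10 ^ 20), (50872620607812396621 / 10 ^ 20), (-147819196242614617155 / 10 ^ 20)],
    ![(-1129448402236781186 / 10 ^ 20), (-3388345206710343559 / 10 ^ 20), (-415428358544825447 / 10 ^ 20), (-1248959844765367149 / 10 ^ 20), (1544876760781606633 / 10 ^ 20)]]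
noncomputable def T1 : Fin 5 → ℝ := ![1, (-1), 1, (-1), 1]
theorem N1_near {m0 a x w1 w2 : ℝ} (h : Enc m0 a x w1 w2) :
    ∀ i j, |N1 m0 a x w1 w2 i j - A1 i j| ≤ 1 / 10 ^ 17 := by
  obtain ⟨⟨a1, a2⟩, ⟨b1, b2⟩, ⟨c1, c2⟩, ⟨d1, d2⟩, ⟨e1, e2⟩, f1, f2⟩ := h
  simp only [Fin.forall_fin_succ, IsEmpty.forall_iff,
      Matrix.cons_val_zero, Matrix.cons_val_succ, and_true, Matrix.of_apply, N1, A1, abs_le]
  repeat' apply And.intro
  all_goals linarith

theorem A1_le : ∀ i j, |A1 i j| ≤ 2 := by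
  simp only [Fin.forall_fin_succ, IsEmpty.forall_iff,
      Matrix.cons_val_zero, Matrix.cons_val_succ, and_true, Matrix.of_apply, A1, abs_le]
  repeat' apply And.intro
  all_goals norm_num

theorem T1_le : ∀ i, |T1 i| ≤ 1 := by
  simp only [Fin.forall_fin_succ, IsEmpty.forall_iff,
      Matrix.cons_val_zero, Matrix.cons_val_succ, and_true, T1]
  norm_num

theorem blk1 (c : ℝ) : blk A1 T1 c = !![(50034881969572387065 / 10 ^ 20) + (c + 1) ^ 2, (147696602438494230452 / 10 ^ 20), (-497017003276799970 / 10 ^ 20), (913792376164893312 / 10 ^ 20), (-49537864966295587095 / 10 ^ 20);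
    (147696602438494230452 / 10 ^ 20), (50434202281683356739 / 10 ^ 20) + (c + (-1)) ^ 2, (916992460392530833 / 10 ^ 20), 0, (-148613594898886761285 / 10 ^ 20);
    (-1346929548175609674 / 10 ^ 20), (2485074418407942636 / 10 ^ 20), (50725744503100275372 / 10 ^ 20) + (c + 1) ^ 2, (145977972260487770660 / 10 ^ 20), (-49378814954924665698 / 10 ^ 20);
    (2465806548784382885 / 10 ^ 20), 0, (145353389693830234270 / 10 ^ 20), (50872620607812396621 / 10 ^ 20) + (c + (-1)) ^ 2, (-147819196242614617155 / 10 ^ 20);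
    (-1129448402236781186 / 10 ^ 20), (-3388345206710343559 / 10 ^ 20), (-415428358544825447 / 10 ^ 20), (-1248959844765367149 / 10 ^ 20), (1544876760781606633 / 10 ^ 20) + (c + 1) ^ 2] := by
  ext i j
  fin_cases i <;> fin_cases j <;> simp [blk, A1, T1]

theorem eqn1_1 {m0 a x w1 w2 σ : ℝ} {v : Fin 5 → ℝ}
    (h : blk (N1 m0 a x w1 w2) T1 σ *ᵥ v = 0) : Eqn m0 a x w1 w2 ((σ + 1) ^ 2)
    ![1 * v (Fin.succ (Fin.succ (Fin.succ (Fin.succ 0)))), 1 * v 0, 1 * v 0, 1 * v 0, 1 * v 0, 1 * v (Fin.succ (Fin.succ 0)), 1 * v (Fin.succ (Fin.succ 0)), 1 * v (Fin.succ (Fin.succ 0)), 1 * v (Fin.succ (Fin.succ 0))]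
    ![0, 0, 0, 0, 0, 0, 0, 0, 0]
    ![0, 1 * v (Fin.succ 0), (-1) * v (Fin.succ 0), 1 * v (Fin.succ 0), (-1) * v (Fin.succ 0), 0, 0, 0, 0]
    ![0, 0, 0, 0, 0, (7938 / 7921) * v (Fin.succ (Fin.succ (Fin.succ 0))), (-7938 / 7921) * v (Fin.succ (Fin.succ (Fin.succ 0))), (7938 / 7921) * v (Fin.succ (Fin.succ (Fin.succ 0))), (-7938 / 7921) * v (Fin.succ (Fin.succ (Fin.succ 0)))] := by
  have H := blk_row h
  simp only [Fin.forall_fin_succ, Fin.sum_univ_succ, Fin.sum_univ_zero, IsEmpty.forall_iff,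
      Matrix.cons_val_zero, Matrix.cons_val_succ, and_true, Matrix.of_apply, N1, T1] at H
  obtain ⟨r0, r1, r2, r3, r4⟩ := H
  simp only [Fin.forall_fin_succ, Fin.sum_univ_succ, Fin.sum_univ_zero, IsEmpty.forall_iff,
      Matrix.cons_val_zero, Matrix.cons_val_succ, and_true, Eqn, mm, WT, ER, EI]
  refine ⟨⟨?_, ?_⟩, ⟨?_, ?_⟩, ⟨?_, ?_⟩, ⟨?_, ?_⟩, ⟨?_, ?_⟩, ⟨?_, ?_⟩, ⟨?_, ?_⟩, ⟨?_, ?_⟩, ⟨?_, ?_⟩⟩
  · linear_combination 1 * r4
  · ring
  · linear_combination 1 * r0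
  · ring
  · linear_combination 1 * r0
  · ring
  · linear_combination 1 * r0
  · ring
  · linear_combination 1 * r0
  · ring
  · linear_combination 1 * r2
  · ring
  · linear_combination 1 * r2
  · ring
  · linear_combination 1 * r2
  · ring
  · linear_combination 1 * r2
  · ring

theorem eqn1_2 {m0 a x w1 w2 σ : ℝ} {v : Fin 5 → ℝ}
    (h : blk (N1 m0 a x w1 w2) T1 σ *ᵥ v = 0) : Eqn m0 a x w1 w2 ((σ + -1) ^ 2)
    ![0, 1 * v (Fin.succ 0), (-1) * v (Fin.succ 0), 1 * v (Fin.succ 0), (-1) * v (Fin.succ 0), 0, 0, 0, 0]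
    ![0, 0, 0, 0, 0, (7938 / 7921) * v (Fin.succ (Fin.succ (Fin.succ 0))), (-7938 / 7921) * v (Fin.succ (Fin.succ (Fin.succ 0))), (7938 / 7921) * v (Fin.succ (Fin.succ (Fin.succ 0))), (-7938 / 7921) * v (Fin.succ (Fin.succ (Fin.succ 0)))]
    ![1 * v (Fin.succ (Fin.succ (Fin.succ (Fin.succ 0)))), 1 * v 0, 1 * v 0, 1 * v 0, 1 * v 0, 1 * v (Fin.succ (Fin.succ 0)), 1 * v (Fin.succ (Fin.succ 0)), 1 * v (Fin.succ (Fin.succ 0)), 1 * v (Fin.succ (Fin.succ 0))]
    ![0, 0, 0, 0, 0, 0, 0, 0, 0] := by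
  have H := blk_row h
  simp only [Fin.forall_fin_succ, Fin.sum_univ_succ, Fin.sum_univ_zero, IsEmpty.forall_iff,
      Matrix.cons_val_zero, Matrix.cons_val_succ, and_true, Matrix.of_apply, N1, T1] at H
  obtain ⟨r0, r1, r2, r3, r4⟩ := H
  simp only [Fin.forall_fin_succ, Fin.sum_univ_succ, Fin.sum_univ_zero, IsEmpty.forall_iff,
      Matrix.cons_val_zero, Matrix.cons_val_succ, and_true, Eqn, mm, WT, ER, EI]
  refine ⟨⟨?_, ?_⟩, ⟨?_, ?_⟩, ⟨?_, ?_⟩, ⟨?_, ?_⟩, ⟨?_, ?_⟩, ⟨?_, ?_⟩, ⟨?_, ?_⟩, ⟨?_, ?_⟩, ⟨?_, ?_⟩⟩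
  · ring
  · ring
  · linear_combination 1 * r1
  · ring
  · linear_combination (-1) * r1
  · ring
  · linear_combination 1 * r1
  · ring
  · linear_combination (-1) * r1
  · ring
  · ring
  · linear_combination (7938 / 7921) * r3
  · ring
  · linear_combination (-7938 / 7921) * r3
  · ring
  · linear_combination (7938 / 7921) * r3
  · ring
  · linear_combination (-7938 / 7921) * r3

theorem mode1 {m0 a x w1 w2 : ℝ} (hW : ∀ i j, wc qq i j = WT x w1 w2 i j) {σ : ℝ} (hσ : σ ≠ 0)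
    {v : Fin 5 → ℝ} (hv : v ≠ 0) (h : blk (N1 m0 a x w1 w2) T1 σ *ᵥ v = 0) :
    Osc (mm m0 a) σ := by
  refine mode_real hW hσ _ _ _ _ (eqn1_1 h) (eqn1_2 h) fun z => hv ?_
  have z0 : 1 * v (Fin.succ (Fin.succ (Fin.succ (Fin.succ 0)))) = 0 := z.1 0
  have z1 : 1 * v 0 = 0 := z.1 1
  have z2 : 1 * v (Fin.succ (Fin.succ 0)) = 0 := z.1 5
  have z3 : 1 * v (Fin.succ 0) = 0 := z.2.2.1 1
  have z5 : (7938 / 7921) * v (Fin.succ (Fin.succ (Fin.succ 0))) = 0 := z.2.2.2 5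
  rw [funext_iff]
  simp only [Fin.forall_fin_succ, IsEmpty.forall_iff, and_true, Pi.zero_apply]
  repeat' apply And.intro
  all_goals linarith

theorem root1_0 {m0 a x w1 w2 : ℝ} (hW : ∀ i j, wc qq i j = WT x w1 w2 i j)
    (h : Enc m0 a x w1 w2) : ∃ σ, (1 / 1000) < σ ∧ σ < (1 / 200) ∧ Osc (mm m0 a) σ := by
  obtain ⟨σ, h1, h2, v, hv, h3⟩ := blk_root (by norm_num) _ _ _ T1_le A1_le (N1_near h)
    (a := (-1 / 200)) (b := (-1 / 1000)) (by norm_num) (by norm_num) (by norm_num)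
    (Or.inr (by rw [blk1, blk1, det5, det5]; norm_num))
  exact ⟨-σ, by linarith, by linarith, (mode1 hW (by linarith : σ < 0).ne hv h3).neg⟩

theorem root1_1 {m0 a x w1 w2 : ℝ} (hW : ∀ i j, wc qq i j = WT x w1 w2 i j)
    (h : Enc m0 a x w1 w2) : ∃ σ, (1 / 200) < σ ∧ σ < (1 / 10) ∧ Osc (mm m0 a) σ := by
  obtain ⟨σ, h1, h2, v, hv, h3⟩ := blk_root (by norm_num) _ _ _ T1_le A1_le (N1_near h)
    (a := (-1 / 10)) (b := (-1 / 200)) (by norm_num) (by norm_num) (by norm_num)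
    (Or.inl (by rw [blk1, blk1, det5, det5]; norm_num))
  exact ⟨-σ, by linarith, by linarith, (mode1 hW (by linarith : σ < 0).ne hv h3).neg⟩

theorem root1_2 {m0 a x w1 w2 : ℝ} (hW : ∀ i j, wc qq i j = WT x w1 w2 i j)
    (h : Enc m0 a x w1 w2) : ∃ σ, (1 / 2) < σ ∧ σ < (13 / 25) ∧ Osc (mm m0 a) σ := by
  obtain ⟨σ, h1, h2, v, hv, h3⟩ := blk_root (by norm_num) _ _ _ T1_le A1_le (N1_near h)
    (a := (-13 / 25)) (b := (-1 / 2)) (by norm_num) (by norm_num) (by norm_num)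
    (Or.inr (by rw [blk1, blk1, det5, det5]; norm_num))
  exact ⟨-σ, by linarith, by linarith, (mode1 hW (by linarith : σ < 0).ne hv h3).neg⟩

theorem root1_3 {m0 a x w1 w2 : ℝ} (hW : ∀ i j, wc qq i j = WT x w1 w2 i j)
    (h : Enc m0 a x w1 w2) : ∃ σ, (21 / 25) < σ ∧ σ < (17 / 20) ∧ Osc (mm m0 a) σ := by
  obtain ⟨σ, h1, h2, v, hv, h3⟩ := blk_root (by norm_num) _ _ _ T1_le A1_le (N1_near h)
    (a := (-17 / 20)) (b := (-21 / 25)) (by norm_num) (by norm_num) (by norm_num)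
    (Or.inl (by rw [blk1, blk1, det5, det5]; norm_num))
  exact ⟨-σ, by linarith, by linarith, (mode1 hW (by linarith : σ < 0).ne hv h3).neg⟩

theorem root1_4 {m0 a x w1 w2 : ℝ} (hW : ∀ i j, wc qq i j = WT x w1 w2 i j)
    (h : Enc m0 a x w1 w2) : ∃ σ, (97 / 100) < σ ∧ σ < (99 / 100) ∧ Osc (mm m0 a) σ := by
  obtain ⟨σ, h1, h2, v, hv, h3⟩ := blk_root (by norm_num) _ _ _ T1_le A1_le (N1_near h)
    (a := (-99 / 100)) (b := (-97 / 100)) (by norm_num) (by norm_num) (by norm_num)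
    (Or.inr (by rw [blk1, blk1, det5, det5]; norm_num))
  exact ⟨-σ, by linarith, by linarith, (mode1 hW (by linarith : σ < 0).ne hv h3).neg⟩

theorem root1_5 {m0 a x w1 w2 : ℝ} (hW : ∀ i j, wc qq i j = WT x w1 w2 i j)
    (h : Enc m0 a x w1 w2) : ∃ σ, (47 / 100) < σ ∧ σ < (1 / 2) ∧ Osc (mm m0 a) σ := by
  obtain ⟨σ, h1, h2, v, hv, h3⟩ := blk_root (by norm_num) _ _ _ T1_le A1_le (N1_near h)
    (a := (47 / 100)) (b := (1 / 2)) (by norm_num) (by norm_num) (by norm_num)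
    (Or.inl (by rw [blk1, blk1, det5, det5]; norm_num))
  exact ⟨σ, h1, h2, mode1 hW (by linarith : 0 < σ).ne' hv h3⟩

theorem root1_6 {m0 a x w1 w2 : ℝ} (hW : ∀ i j, wc qq i j = WT x w1 w2 i j)
    (h : Enc m0 a x w1 w2) : ∃ σ, (171 / 200) < σ ∧ σ < (87 / 100) ∧ Osc (mm m0 a) σ := by
  obtain ⟨σ, h1, h2, v, hv, h3⟩ := blk_root (by norm_num) _ _ _ T1_le A1_le (N1_near h)
    (a := (171 / 200)) (b := (87 / 100)) (by norm_num) (by norm_num) (by norm_num)
    (Or.inr (by rw [blk1, blk1, det5, det5]; norm_num))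
  exact ⟨σ, h1, h2, mode1 hW (by linarith : 0 < σ).ne' hv h3⟩

theorem root1_7 {m0 a x w1 w2 : ℝ} (hW : ∀ i j, wc qq i j = WT x w1 w2 i j)
    (h : Enc m0 a x w1 w2) : ∃ σ, (99 / 100) < σ ∧ σ < (999 / 1000) ∧ Osc (mm m0 a) σ := by
  obtain ⟨σ, h1, h2, v, hv, h3⟩ := blk_root (by norm_num) _ _ _ T1_le A1_le (N1_near h)
    (a := (99 / 100)) (b := (999 / 1000)) (by norm_num) (by norm_num) (by norm_num)
    (Or.inl (by rw [blk1, blk1, det5, det5]; norm_num))
  exact ⟨σ, h1, h2, mode1 hW (by linarith : 0 < σ).ne' hv h3⟩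

theorem kepler {m0 a x w1 w2 : ℝ} (hW : ∀ i j, wc qq i j = WT x w1 w2 i j)
    (c1 : m0 + 2 * (a * x) + (1 / 4) * a + (4797 / 22250) * (a * w1) + (14022 / 11125) * (a * w2) = 1)
    (c2 : (704969 / 250047) * (m0 * x) + (28903729 / 111132000) * (a + a * x) + (37 / 63) * (a * w1) + (215 / 63) * (a * w2) = 1) :
    fderiv ℝ (rotField (mm m0 a) 1) (qq, 0) (qq, fun i => -2 * I * qq i) =
      (1 : ℝ) • (fun i => -2 * I * qq i, fun i => -qq i) ∧
    fderiv ℝ (rotField (mm m0 a) 1) (qq, 0) (fun i => -2 * I * qq i, fun i => -qq i) =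
      -(1 : ℝ) • (qq, fun i => -2 * I * qq i) ∧
    fderiv ℝ (rotField (mm m0 a) 1) (qq, 0) (fun i => I * qq i, 0) = 0 := by
  have e3 : Eqn m0 a x w1 w2 (-2) X Y X Y := by
    simp only [Fin.forall_fin_succ, Fin.sum_univ_succ, Fin.sum_univ_zero, IsEmpty.forall_iff,
      Matrix.cons_val_zero, Matrix.cons_val_succ, and_true, Eqn, mm, WT, ER, EI, X, Y]
    repeat' apply And.intro
    all_goals linarith
  have e0 : Eqn m0 a x w1 w2 1 X Y (fun i => -X i) (fun i => -Y i) := by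
    simp only [Fin.forall_fin_succ, Fin.sum_univ_succ, Fin.sum_univ_zero, IsEmpty.forall_iff,
      Matrix.cons_val_zero, Matrix.cons_val_succ, and_true, Eqn, mm, WT, ER, EI, X, Y]
    repeat' apply And.intro
    all_goals linarith
  have k3 : ∀ i, opA (mm m0 a) 1 qq (ec qq) qq (fun j => conj (qq j)) i = 3 * qq i := fun i => by
    have : opA (mm m0 a) 1 qq (ec qq) qq (fun j => conj (qq j)) i +
        ((-2 - 1 : ℝ) : ℂ) * qq i = 0 := eqn_opA hW e3 i
    push_cast at this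
    linear_combination this
  have k0 : ∀ i, opA (mm m0 a) 1 qq (ec qq) qq (fun j => -conj (qq j)) i = 0 := fun i => by
    have := eqn_opA hW e0 i
    rw [sub_self, ofReal_zero, zero_mul, add_zero] at this
    have h : (fun j => -conj (qq j)) = fun j => conj (⟨-X j, -Y j⟩ : ℂ) :=
      funext fun j => by apply Complex.ext <;> simp [qq]
    rw [h]
    exact this
  have rot : ∀ (c : ℝ) i, opA (mm m0 a) 1 qq (ec qq) (fun j => c * I * qq j)
      (fun j => conj (c * I * qq j)) i = 0 := fun c i => by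
    rw [opA_lin (mm m0 a) 1 qq (ec qq) (c * I) 0 qq (fun j => -conj (qq j)) 0 0 _ _
      (fun j => by ring) (fun j => by rw [map_mul, map_mul, conj_I, conj_ofReal]; ring), k0]
    ring
  refine ⟨?_, ?_, ?_⟩
  · rw [fderiv_opA _ 1 qq_inj, one_smul]
    refine Prod.ext rfl (funext fun i => ?_)
    simp only [k3]
    push_cast
    linear_combination 4 * qq i * I_mul_I
  · rw [fderiv_opA _ 1 qq_inj]
    refine Prod.ext (funext fun i => by simp) (funext fun i => ?_)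
    have := rot (-2) i
    push_cast at this
    simp only [this, Prod.smul_snd, Pi.smul_apply, real_smul]
    push_cast
    ring
  · rw [fderiv_opA _ 1 qq_inj]
    refine Prod.ext rfl (funext fun i => ?_)
    have := rot 1 i
    simp only [ofReal_one, one_mul] at this
    simp only [this]
    simp

theorem zero_of_cc {n : ℕ} {m : Fin n → ℝ} {ω : ℝ} {q : Fin n → ℂ}
    (h : ∀ i, (ω : ℂ) ^ 2 * q i + ∑ j, ((m j * wc q i j : ℝ) : ℂ) * (q j - q i) = 0) :
    rotField m ω (q, 0) = 0 := by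
  refine Prod.ext rfl (funext fun i => ?_)
  simp only [rotField, Pi.zero_apply, mul_zero, sub_zero, Prod.snd_zero]
  rw [← h i, ← add_sum_erase univ _ (mem_univ i), sub_self, mul_zero, zero_add]
  congr 1
  refine sum_congr rfl fun j _ => ?_
  rw [wc]
  push_cast
  ring

theorem equilibrium {m0 a x w1 w2 : ℝ} (hW : ∀ i j, wc qq i j = WT x w1 w2 i j)
    (c1 : m0 + 2 * (a * x) + (1 / 4) * a + (4797 / 22250) * (a * w1) + (14022 / 11125) * (a * w2) = 1)
    (c2 : (704969 / 250047) * (m0 * x) + (28903729 / 111132000) * (a + a * x) + (37 / 63) * (a * w1) + (215 / 63) * (a * w2) = 1) :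
    rotField (mm m0 a) 1 (qq, 0) = 0 := by
  have e : ∀ i, X i + ∑ j, mm m0 a j * WT x w1 w2 i j * (X j - X i) = 0 ∧
      Y i + ∑ j, mm m0 a j * WT x w1 w2 i j * (Y j - Y i) = 0 := by
    simp only [Fin.forall_fin_succ, Fin.sum_univ_succ, Fin.sum_univ_zero, IsEmpty.forall_iff,
      Matrix.cons_val_zero, Matrix.cons_val_succ, and_true, mm, WT, X, Y]
    repeat' apply And.intro
    all_goals linarith
  refine zero_of_cc fun i => Complex.ext ?_ ?_
  · rw [zero_re, ← (e i).1, add_re, re_sum]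
    congr 1
    · simp [qq]
    · exact sum_congr rfl fun j _ => by rw [re_ofReal_mul, hW]; simp [qq]
  · rw [zero_im, ← (e i).2, add_im, im_sum]
    congr 1
    · simp [qq]
    · exact sum_congr rfl fun j _ => by rw [im_ofReal_mul, hW]; simp [qq]

theorem sum_cplx (m f g : Fin 9 → ℝ) (h1 : ∑ i, m i * f i = 0) (h2 : ∑ i, m i * g i = 0) :
    ∑ i, (m i : ℂ) * (⟨f i, g i⟩ : ℂ) = 0 := by
  apply Complex.ext
  · rw [re_sum, zero_re, ← h1]; exact sum_congr rfl fun j _ => by rw [re_ofReal_mul]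
  · rw [im_sum, zero_im, ← h2]; exact sum_congr rfl fun j _ => by rw [im_ofReal_mul]

theorem com (m0 a : ℝ) : ∑ i, (mm m0 a i : ℂ) * qq i = 0 := by
  refine sum_cplx _ X Y ?_ ?_
  all_goals
    simp only [Fin.sum_univ_succ, Fin.sum_univ_zero, Matrix.cons_val_zero, Matrix.cons_val_succ,
      mm, X, Y]
    ring

theorem inertia (m0 a : ℝ) : ∑ i, mm m0 a i * ‖qq i‖ ^ 2 = (5425061 / 990125) * a := by
  have : ∀ i, ‖qq i‖ ^ 2 = X i ^ 2 + Y i ^ 2 := fun i => by
    rw [Complex.sq_norm, normSq_apply]; simp [qq]; ring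
  simp only [this, Fin.sum_univ_succ, Fin.sum_univ_zero, Matrix.cons_val_zero,
    Matrix.cons_val_succ, mm, X, Y]
  ring

theorem total (m0 a : ℝ) : ∑ i, mm m0 a i = m0 + (1369 / 250) * a := by
  simp only [Fin.sum_univ_succ, Fin.sum_univ_zero, Matrix.cons_val_zero, Matrix.cons_val_succ, mm]
  ring

theorem mm_pos {m0 a : ℝ} (h0 : 0 < m0) (ha : 0 < a) : ∀ i, 0 < mm m0 a i := by
  simp only [Fin.forall_fin_succ, IsEmpty.forall_iff,
      Matrix.cons_val_zero, Matrix.cons_val_succ, and_true, mm]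
  repeat' apply And.intro
  all_goals linarith

noncomputable def PX : Fin 9 → ℝ := ![0, (321 / 25000), (50321 / 25000), (321 / 25000), (50321 / 25000), (91717 / 100000), (91717 / 100000), (91717 / 100000), (91717 / 100000)]
noncomputable def PY : Fin 9 → ℝ := ![0, 0, 0, 0, 0, (-357277473 / 396050000), (357277473 / 396050000), (-357277473 / 396050000), (357277473 / 396050000)]

theorem sad1 (m0 a x w1 w2 : ℝ) : ∑ i, ∑ j, mm m0 a i * mm m0 a j * (WT x w1 w2 j i *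
    ((X i - X j) * (PX i - PX j) + (Y i - Y j) * (PY i - PY j))) = 0 := by
  simp only [Fin.sum_univ_succ, Fin.sum_univ_zero, Matrix.cons_val_zero, Matrix.cons_val_succ,
    mm, X, Y, PX, PY, WT]
  ring

theorem sad2 {m0 a x w1 w2 : ℝ}
    (c1 : m0 + 2 * (a * x) + (1 / 4) * a + (4797 / 22250) * (a * w1) + (14022 / 11125) * (a * w2) = 1)
    (c2 : (704969 / 250047) * (m0 * x) + (28903729 / 111132000) * (a + a * x) + (37 / 63) * (a * w1) + (215 / 63) * (a * w2) = 1) :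
    ∑ i, ∑ j, mm m0 a i * mm m0 a j * (WT x w1 w2 j i * DT j i) = 2 * ((5425061 / 990125) * a) := by
  simp only [Fin.sum_univ_succ, Fin.sum_univ_zero, Matrix.cons_val_zero, Matrix.cons_val_succ,
    mm, DT, WT]
  linear_combination 8 * a * c1 + 2 * ((5425061 / 990125) - 4) * a * c2

theorem sad3 (m0 a x w1 w2 c : ℝ) (hc : c * (m0 + (1369 / 250) * a) = a * (135127573 / 25000000)) :
    ∑ i, ∑ j, mm m0 a i * mm m0 a j * (WT x w1 w2 j i *
      (3 * ((X i - X j) * (PX i - PX j) + (Y i - Y j) * (PY i - PY j)) ^ 2 / DT j i -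
        ((PX i - PX j) ^ 2 + (PY i - PY j) ^ 2))) +
      2 * ∑ i, mm m0 a i * ((PX i - c) ^ 2 + PY i ^ 2) =
    a * ((330844316885603936137 / 15685560250000000000) + (-2531996959 / 156250000) * m0 + (-85129392946302242647 / 6181717500000000000) * (m0 * x) + (69509209896663327 / 111250000000000000) * a + 16 * (a * x) + (2005280769162735911528217 / 364297136806250000000000) * (a * w1) + (11179114473573670688188821 / 2123275863241250000000000) * (a * w2) - 2 * (135127573 / 25000000) * c) := by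
  simp only [Fin.sum_univ_succ, Fin.sum_univ_zero, Matrix.cons_val_zero, Matrix.cons_val_succ,
    mm, X, Y, PX, PY, WT, DT]
  linear_combination 2 * c * hc

theorem not_min {m0 a x w1 w2 : ℝ} (hW : ∀ i j, wc qq i j = WT x w1 w2 i j)
    (c1 : m0 + 2 * (a * x) + (1 / 4) * a + (4797 / 22250) * (a * w1) + (14022 / 11125) * (a * w2) = 1)
    (c2 : (704969 / 250047) * (m0 * x) + (28903729 / 111132000) * (a + a * x) + (37 / 63) * (a * w1) + (215 / 63) * (a * w2) = 1)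
    (h : Enc m0 a x w1 w2) (ε : ℝ) (hε : 0 < ε) :
    ∃ z : Fin 9 → ℂ, ‖z - qq‖ < ε ∧ Function.Injective z ∧ ∑ i, (mm m0 a i : ℂ) * z i = 0 ∧
      ∑ i, mm m0 a i * ‖z i‖ ^ 2 = ∑ i, mm m0 a i * ‖qq i‖ ^ 2 ∧
      ∑ i, ∑ j ∈ univ.erase i, mm m0 a i * mm m0 a j / ‖z i - z j‖ <
        ∑ i, ∑ j ∈ univ.erase i, mm m0 a i * mm m0 a j / ‖qq i - qq j‖ := by
  obtain ⟨⟨a1, a2⟩, ⟨b1, b2⟩, ⟨d1, d2⟩, ⟨e1, e2⟩, ⟨f1, f2⟩, g1, g2⟩ := h
  have h0 : 0 < m0 := by linarith
  have ha : 0 < a := by linarith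
  have hM : 0 < m0 + (1369 / 250) * a := by linarith
  obtain ⟨c, hc⟩ : ∃ c : ℝ, c = a * (135127573 / 25000000) / (m0 + (1369 / 250) * a) := ⟨_, rfl⟩
  have hc1 : c * (m0 + (1369 / 250) * a) = a * (135127573 / 25000000) := by rw [hc]; field_simp
  have hc2 : (2987616140566544960 / 10 ^ 20) ≤ c := by rw [hc, le_div_iff₀ hM]; linarith
  have hB : ∀ i j, (conj (qq i - qq j) * ((⟨PX i - c, PY i⟩ : ℂ) - ⟨PX j - c, PY j⟩)).re =
      (X i - X j) * (PX i - PX j) + (Y i - Y j) * (PY i - PY j) := fun i j => by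
    simp [qq]; ring
  have hC : ∀ i j, normSq ((⟨PX i - c, PY i⟩ : ℂ) - ⟨PX j - c, PY j⟩) =
      (PX i - PX j) ^ 2 + (PY i - PY j) ^ 2 := fun i j => by
    simp [normSq_apply]; ring
  have hN : ∀ i, ‖(⟨PX i - c, PY i⟩ : ℂ)‖ ^ 2 = (PX i - c) ^ 2 + PY i ^ 2 := fun i => by
    rw [Complex.sq_norm, normSq_apply]; ring
  refine saddle (mm m0 a) (mm_pos h0 ha) qq (fun j => ⟨PX j - c, PY j⟩) qq_inj
    (by rw [inertia]; linarith) (com m0 a) (sum_cplx _ _ _ ?_ ?_) ?_ ?_ ?_ ?_ ε hε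
  · simp only [Fin.sum_univ_succ, Fin.sum_univ_zero, Matrix.cons_val_zero, Matrix.cons_val_succ,
      mm, PX]
    linear_combination -hc1
  · simp only [Fin.sum_univ_succ, Fin.sum_univ_zero, Matrix.cons_val_zero, Matrix.cons_val_succ,
      mm, PY]
    ring
  · have : ∀ i, (conj (qq i) * (⟨PX i - c, PY i⟩ : ℂ)).re = X i * (PX i - c) + Y i * PY i :=
      fun i => by simp [qq]
    simp only [this]
    simp only [Fin.sum_univ_succ, Fin.sum_univ_zero, Matrix.cons_val_zero,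
      Matrix.cons_val_succ, mm, X, Y, PX, PY]
    ring
  · simp only [hB, hW]
    exact sad1 m0 a x w1 w2
  · simp only [normSq_qq, hW, inertia]
    exact sad2 c1 c2
  · simp only [hB, hC, hN, normSq_qq, hW]
    rw [sad3 m0 a x w1 w2 c hc1]
    exact mul_neg_of_pos_of_neg ha (by linarith)

theorem freqs {m0 a x w1 w2 : ℝ} (hW : ∀ i j, wc qq i j = WT x w1 w2 i j)
    (h : Enc m0 a x w1 w2) : ∃ σ : Fin 14 → ℝ, StrictMono σ ∧ (∀ k, 0 < σ k ∧ σ k < 1) ∧
      ∀ k, Osc (mm m0 a) (σ k) := by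
  obtain ⟨s0, l0, u0, o0⟩ := root1_0 hW h
  obtain ⟨s1, l1, u1, o1⟩ := root1_1 hW h
  obtain ⟨s2, l2, u2, o2⟩ := root2_0 hW h
  obtain ⟨s3, l3, u3, o3⟩ := root2_1 hW h
  obtain ⟨s4, l4, u4, o4⟩ := root1_5 hW h
  obtain ⟨s5, l5, u5, o5⟩ := root1_2 hW h
  obtain ⟨s6, l6, u6, o6⟩ := root0_0 hW h
  obtain ⟨s7, l7, u7, o7⟩ := root0_1 hW h
  obtain ⟨s8, l8, u8, o8⟩ := root1_3 hW h
  obtain ⟨s9, l9, u9, o9⟩ := root1_6 hW h
  obtain ⟨s10, l10, u10, o10⟩ := root2_2 hW h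
  obtain ⟨s11, l11, u11, o11⟩ := root2_3 hW h
  obtain ⟨s12, l12, u12, o12⟩ := root1_4 hW h
  obtain ⟨s13, l13, u13, o13⟩ := root1_7 hW h
  refine ⟨![s0, s1, s2, s3, s4, s5, s6, s7, s8, s9, s10, s11, s12, s13],
    Fin.strictMono_iff_lt_succ.2 ?_, ?_, ?_⟩
  · intro i
    fin_cases i
    exacts [u0.trans l1, by show s1 < s2; linarith, u2.trans l3, u3.trans l4, u4.trans l5,
      u5.trans l6, by show s6 < s7; linarith, u7.trans l8, by show s8 < s9; linarith, u9.trans l10,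
      u10.trans l11, u11.trans l12, u12.trans l13]
  · simp only [Fin.forall_fin_succ, IsEmpty.forall_iff,
      Matrix.cons_val_zero, Matrix.cons_val_succ, and_true]
    repeat' apply And.intro
    all_goals linarith
  · simp only [Fin.forall_fin_succ, IsEmpty.forall_iff,
      Matrix.cons_val_zero, Matrix.cons_val_succ, and_true]
    exact ⟨o0, o1, o2, o3, o4, o5, o6, o7, o8, o9, o10, o11, o12, o13⟩

theorem osc_tangent {m : Fin 9 → ℝ} (he : rotField m 1 (qq, 0) = 0) {σ : ℝ} (h0 : 0 < σ)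
    (h1 : σ < 1) {u w : (Fin 9 → ℂ) × (Fin 9 → ℂ)}
    (hu : fderiv ℝ (rotField m 1) (qq, 0) u = σ • w)
    (hw : fderiv ℝ (rotField m 1) (qq, 0) w = -σ • u) : Tangent m 1 qq u ∧ Tangent m 1 qq w := by
  refine tangent_osc qq_inj he (α := 0) (β := -σ) (fun h => ?_) (fun h => ?_) ?_
    (by rw [hu]; simp) (by rw [hw]; simp)
  · have := congrArg im h
    simp at this
    linarith
  · have := congrArg im h
    simp at this
    linarith
  · have : 0 < σ ^ 2 := by positivity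
    simpa using h0.ne'

theorem stable_saddle : ∃ (m : Fin 9 → ℝ) (q : Fin 9 → ℂ), (∀ i, 0 < m i) ∧ Function.Injective q ∧
    10 * (∑ j, m j - m 0) ≤ m 0 ∧ ∑ i, (m i : ℂ) * q i = 0 ∧ rotField m 1 (q, 0) = 0 ∧
    fderiv ℝ (rotField m 1) (q, 0) ((fun i => Complex.I * q i), 0) = 0 ∧
    (∃ (σ : Fin 15 → ℝ) (u w : Fin 15 → (Fin 9 → ℂ) × (Fin 9 → ℂ)), Function.Injective σ ∧
      (∀ k, 0 < σ k ∧ u k ≠ 0 ∧ Tangent m 1 q (u k) ∧ Tangent m 1 q (w k) ∧
        fderiv ℝ (rotField m 1) (q, 0) (u k) = σ k • w k ∧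
        fderiv ℝ (rotField m 1) (q, 0) (w k) = -σ k • u k) ∧
      ∀ v, Tangent m 1 q v → ∃ (c : ℝ) (a b : Fin 15 → ℝ),
        v = c • ((fun i => Complex.I * q i), 0) + ∑ k, (a k • u k + b k • w k)) ∧
    ∀ ε > 0, ∃ z : Fin 9 → ℂ, ‖z - q‖ < ε ∧ Function.Injective z ∧ ∑ i, (m i : ℂ) * z i = 0 ∧
      ∑ i, m i * ‖z i‖ ^ 2 = ∑ i, m i * ‖q i‖ ^ 2 ∧
      ∑ i, ∑ j ∈ Finset.univ.erase i, m i * m j / ‖z i - z j‖ <
        ∑ i, ∑ j ∈ Finset.univ.erase i, m i * m j / ‖q i - q j‖ := by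
  obtain ⟨m0, a, x, w1, w2, hW, c1, c2, h⟩ := params
  have h0 : 0 < m0 := by linarith [h.1.1]
  have ha : 0 < a := by linarith [h.2.2.1.1]
  have he := equilibrium hW c1 c2
  obtain ⟨σ, hs, hb, ho⟩ := freqs hW h
  choose u w hu h1 h2 using ho
  obtain ⟨k1, k2, k3⟩ := kepler hW c1 c2
  have hq1 : qq 1 ≠ 0 := fun e => by simpa [qq, X] using congrArg re e
  have cm : ∀ c : ℂ, ∑ i, (mm m0 a i : ℂ) * (c * qq i) = 0 := fun c => by
    rw [← mul_zero c, ← com m0 a, mul_sum]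
    exact sum_congr rfl fun i _ => by ring
  have tg : ∀ c d : ℂ, 2 * c.re + d.im = 0 →
      Tangent (mm m0 a) 1 qq (fun i => c * qq i, fun i => d * qq i) := fun c d e => by
    refine ⟨cm c, ?_, ?_⟩
    · rw [← cm (d + I * c)]
      exact sum_congr rfl fun i _ => by push_cast; ring
    · rw [fderiv_angMom]
      refine sum_eq_zero fun i _ => ?_
      simp
      right
      linear_combination ((qq i).re ^ 2 + (qq i).im ^ 2) * e
  have t1 : Tangent (mm m0 a) 1 qq (qq, fun i => -2 * I * qq i) := by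
    simpa using tg 1 (-2 * I) (by simp)
  have t2 : Tangent (mm m0 a) 1 qq (fun i => -2 * I * qq i, fun i => -qq i) := by
    simpa using tg (-2 * I) (-1) (by simp)
  have t3 : Tangent (mm m0 a) 1 qq (fun i => I * qq i, 0) := by
    have := tg I 0 (by simp)
    simp only [zero_mul] at this
    exact this
  set σ' : Fin 15 → ℝ := Fin.cons 1 σ with hσ'
  set u' : Fin 15 → (Fin 9 → ℂ) × (Fin 9 → ℂ) := Fin.cons (qq, fun i => -2 * I * qq i) u
  set w' : Fin 15 → (Fin 9 → ℂ) × (Fin 9 → ℂ) :=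
    Fin.cons (fun i => -2 * I * qq i, fun i => -qq i) w
  have inj : Function.Injective σ' :=
    Fin.cons_injective_iff.2 ⟨fun ⟨k, e⟩ => (hb k).2.ne e, hs.injective⟩
  have all : ∀ k, 0 < σ' k ∧ u' k ≠ 0 ∧ Tangent (mm m0 a) 1 qq (u' k) ∧
      Tangent (mm m0 a) 1 qq (w' k) ∧
      fderiv ℝ (rotField (mm m0 a) 1) (qq, 0) (u' k) = σ' k • w' k ∧
      fderiv ℝ (rotField (mm m0 a) 1) (qq, 0) (w' k) = -σ' k • u' k := by
    refine Fin.cases ⟨one_pos, fun e => hq1 (congrFun (congrArg Prod.fst e) 1), t1, t2, k1, k2⟩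
      fun k => ?_
    have := osc_tangent he (hb k).1 (hb k).2 (h1 k) (h2 k)
    exact ⟨(hb k).1, hu k, this.1, this.2, h1 k, h2 k⟩
  have dom : 10 * (∑ j, mm m0 a j - mm m0 a 0) ≤ mm m0 a 0 := by
    rw [total, show mm m0 a 0 = m0 from rfl]
    linarith [h.1.1, h.2.2.1.2]
  refine ⟨mm m0 a, qq, mm_pos h0 ha, qq_inj, dom, com m0 a, he, k3, ⟨σ', u', w', inj, all, ?_⟩,
    not_min hW c1 c2 h⟩
  refine span_tangent (by norm_num) (by rw [total]; positivity) (com m0 a)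
    (by rw [inertia]; positivity) _ u' w' ?_ t3 (fun k => (all k).2.2.1) fun k => (all k).2.2.2.1
  refine indep (fderiv ℝ (rotField (mm m0 a) 1) (qq, 0)).toLinearMap _ (fun e => ?_) k3 σ' u' w'
    (fun k => (all k).1.ne') (fun i j e => inj ?_) (fun k => (all k).2.1)
    (fun k => (all k).2.2.2.2.1) fun k => (all k).2.2.2.2.2
  · exact mul_ne_zero I_ne_zero hq1 (congrFun (congrArg Prod.fst e) 1)
  · exact (pow_left_inj₀ (all i).1.le (all j).1.le two_ne_zero).1 e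

end Pool.Agent.MP_4948b4_mp.H95

end
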